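import Mathlib

/-!
Surface area of convex bodies in space: nearest point projection, polytopes, finiteness.
-/

set_option autoImplicit false

open MeasureTheory Set Filter Topology
open scoped ENNReal NNReal

namespace Pool.Agent.Helper977.ConvexArea

/-- Euclidean 3-space. -/
abbrev E3 := EuclideanSpace ℝ (Fin 3)

/-! ### Nearest point projection -/

section proj

variable {V : Type*} [NormedAddCommGroup V] [InnerProductSpace ℝ V]

/-- A map is the nearest point projection onto `K`. -/
def IsProj (K : Set V) (p : V → V) : Prop :=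
  ∀ x, p x ∈ K ∧ ∀ y ∈ K, inner ℝ (x - p x) (y - p x) ≤ 0

theorem exists_isProj [CompleteSpace V] {K : Set V} (hK : Convex ℝ K) (hc : IsClosed K)
    (hne : K.Nonempty) : ∃ p, IsProj K p := by
  have h : ∀ x : V, ∃ v ∈ K, ∀ y ∈ K, inner ℝ (x - v) (y - v) ≤ 0 := by
    intro x
    obtain ⟨v, hv, hv'⟩ := exists_norm_eq_iInf_of_complete_convex hne hc.isComplete hK x
    exact ⟨v, hv, (norm_eq_iInf_iff_real_inner_le_zero hK hv).1 hv'⟩
  choose p hp hp' using h
  exact ⟨p, fun x => ⟨hp x, hp' x⟩⟩

theorem IsProj.lipschitz {K : Set V} {p : V → V} (hp : IsProj K p) : LipschitzWith 1 p := by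
  apply LipschitzWith.of_dist_le_mul
  intro x y
  rw [NNReal.coe_one, one_mul, dist_eq_norm, dist_eq_norm]
  have h1 := (hp x).2 (p y) (hp y).1
  have h2 := (hp y).2 (p x) (hp x).1
  have key : ‖p x - p y‖ ^ 2 ≤ inner ℝ (x - y) (p x - p y) := by
    rw [← real_inner_self_eq_norm_sq]
    have e : inner ℝ (x - y) (p x - p y) - inner ℝ (p x - p y) (p x - p y)
        = -(inner ℝ (x - p x) (p y - p x)) - inner ℝ (y - p y) (p x - p y) := by
      simp only [inner_sub_left, inner_sub_right]
      ring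
    linarith
  have h3 := real_inner_le_norm (x - y) (p x - p y)
  by_cases h0 : ‖p x - p y‖ = 0
  · rw [h0]; positivity
  · have : 0 < ‖p x - p y‖ := lt_of_le_of_ne (norm_nonneg _) (Ne.symm h0)
    nlinarith

theorem IsProj.eq_of {K : Set V} {p : V → V} (hp : IsProj K p) {x v : V} (hv : v ∈ K)
    (h : ∀ y ∈ K, inner ℝ (x - v) (y - v) ≤ 0) : p x = v := by
  have h1 := (hp x).2 v hv
  have h2 := h (p x) (hp x).1
  have e : inner ℝ (v - p x) (v - p x) = inner ℝ (x - p x) (v - p x) + inner ℝ (x - v) (p x - v) := by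
    simp only [inner_sub_left, inner_sub_right]
    ring
  have h3 : inner ℝ (v - p x) (v - p x) ≤ 0 := by linarith
  have h4 : v - p x = 0 := by
    rw [real_inner_self_eq_norm_sq] at h3
    have : ‖v - p x‖ = 0 := by nlinarith [norm_nonneg (v - p x)]
    exact norm_eq_zero.1 this
  exact (sub_eq_zero.1 h4).symm

theorem IsProj.eq_self {K : Set V} {p : V → V} (hp : IsProj K p) {x : V} (hx : x ∈ K) :
    p x = x := hp.eq_of hx (by simp)

/-- Points outside the interior project to the boundary. -/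
theorem IsProj.mem_frontier {K : Set V} {p : V → V} (hp : IsProj K p) (hc : IsClosed K) {x : V}
    (hx : x ∉ interior K) : p x ∈ frontier K := by
  rw [hc.frontier_eq]
  refine ⟨(hp x).1, fun hi => hx ?_⟩
  have : x = p x := by
    by_contra hne
    have hne' : x - p x ≠ 0 := sub_ne_zero.2 hne
    have hcont : Tendsto (fun s : ℝ => p x + s • (x - p x)) (𝓝[>] 0) (𝓝 (p x)) := by
      have : Continuous (fun s : ℝ => p x + s • (x - p x)) := by fun_prop
      have h := this.tendsto 0
      simp only [zero_smul, add_zero] at h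
      exact h.mono_left nhdsWithin_le_nhds
    have hev := hcont.eventually (mem_interior_iff_mem_nhds.1 hi)
    obtain ⟨s, hs, hs0⟩ := (hev.and self_mem_nhdsWithin).exists
    have h1 := (hp x).2 _ hs
    rw [add_sub_cancel_left, inner_smul_right] at h1
    have h2 : 0 < inner ℝ (x - p x) (x - p x) := by
      rw [real_inner_self_eq_norm_sq]; positivity
    have hs0' : 0 < s := hs0
    nlinarith
  rw [this]; exact hi

/-- Supporting half-space at a boundary point. -/
theorem exists_support {K : Set V} [CompleteSpace V] (hK : Convex ℝ K) (hc : IsClosed K)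
    (hne : (interior K).Nonempty)
    {y : V} (hy : y ∈ frontier K) : ∃ u : V, ‖u‖ = 1 ∧ ∀ z ∈ K, inner ℝ u (z - y) ≤ 0 := by
  have hy' : y ∉ interior K := by
    rw [hc.frontier_eq] at hy; exact hy.2
  obtain ⟨f, hf⟩ := geometric_hahn_banach_open_point hK.interior isOpen_interior hy'
  obtain ⟨z0, hz0⟩ := hne
  set w := (InnerProductSpace.toDual ℝ V).symm f with hw
  have hfw : ∀ z, f z = inner ℝ w z := by
    intro z
    rw [hw, InnerProductSpace.toDual_symm_apply]
  have hw0 : w ≠ 0 := by
    intro h0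
    have := hf z0 hz0
    rw [hfw, hfw, h0] at this
    simp at this
  have hle : ∀ z ∈ K, f z ≤ f y := by
    intro z hz
    have hz' : z ∈ closure (interior K) := by
      rw [hK.closure_interior_eq_closure_of_nonempty_interior ⟨z0, hz0⟩]
      exact subset_closure hz
    have : closure (interior K) ⊆ {z | f z ≤ f y} := by
      apply closure_minimal
      · intro a ha; exact (hf a ha).le
      · exact isClosed_le f.continuous continuous_const
    exact this hz'
  refine ⟨‖w‖⁻¹ • w, ?_, ?_⟩
  · rw [norm_smul, norm_inv, norm_norm, inv_mul_cancel₀ (norm_ne_zero_iff.2 hw0)]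
  · intro z hz
    have := hle z hz
    rw [hfw, hfw] at this
    rw [inner_smul_left, inner_sub_right]
    simp only [conj_trivial]
    have h0 : 0 < ‖w‖⁻¹ := by positivity
    exact mul_nonpos_of_nonneg_of_nonpos h0.le (by linarith)

theorem inter_frontier_nonempty {X : Type*} [TopologicalSpace X] {s t : Set X}
    (hs : IsPreconnected s) (h1 : (s ∩ t).Nonempty) (h2 : (s ∩ tᶜ).Nonempty) :
    (s ∩ frontier t).Nonempty := by
  by_contra hcon
  rw [not_nonempty_iff_eq_empty] at hcon
  have hnot : ∀ x ∈ s, x ∉ frontier t := fun x hx hf => by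
    have : x ∈ s ∩ frontier t := ⟨hx, hf⟩
    rw [hcon] at this; exact this
  obtain ⟨a, ha, hat⟩ := h1
  obtain ⟨b, hb, hbt⟩ := h2
  have hcov : s ⊆ interior t ∪ (closure t)ᶜ := by
    intro x hx
    by_cases hxc : x ∈ closure t
    · left
      by_contra hxi
      exact hnot x hx ⟨hxc, hxi⟩
    · right; exact hxc
  have hA : (s ∩ interior t).Nonempty := by
    refine ⟨a, ha, ?_⟩
    rcases hcov ha with h | h
    · exact h
    · exact absurd (subset_closure hat) h
  have hB : (s ∩ (closure t)ᶜ).Nonempty := by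
    refine ⟨b, hb, ?_⟩
    rcases hcov hb with h | h
    · exact absurd (interior_subset h) hbt
    · exact h
  obtain ⟨x, hx, hx1, hx2⟩ := hs _ _ isOpen_interior isClosed_closure.isOpen_compl hcov hA hB
  exact hx2 (subset_closure (interior_subset hx1))

/-- If `K ⊆ C` with `C` bounded, the boundary of `K` is covered by the projection of that of `C`. -/
theorem frontier_subset_image {K C : Set V} [CompleteSpace V] {p : V → V} (hp : IsProj K p)
    (hK : Convex ℝ K) (hc : IsClosed K) (hne : (interior K).Nonempty)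
    (hKC : K ⊆ C) (hC : Bornology.IsBounded C) : frontier K ⊆ p '' (frontier C) := by
  intro y hy
  obtain ⟨u, hu, hsup⟩ := exists_support hK hc hne hy
  have hyK : y ∈ K := by rw [hc.frontier_eq] at hy; exact hy.1
  -- the ray
  set R : Set V := (fun t : ℝ => y + t • u) '' Ici 0 with hR
  have hRc : IsPreconnected R := by
    apply IsPreconnected.image isPreconnected_Ici
    fun_prop
  have h1 : (R ∩ C).Nonempty := ⟨y, ⟨0, by simp, by simp⟩, hKC hyK⟩
  have h2 : (R ∩ Cᶜ).Nonempty := by
    obtain ⟨r, hr⟩ := hC.subset_closedBall y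
    refine ⟨y + (|r| + 1) • u, ⟨|r| + 1, by simp; positivity, rfl⟩, ?_⟩
    intro hmem
    have := hr hmem
    rw [Metric.mem_closedBall, dist_eq_norm, add_sub_cancel_left, norm_smul, hu, mul_one,
      Real.norm_eq_abs] at this
    have h3 := le_abs_self (|r| + 1)
    have h4 := le_abs_self r
    linarith
  obtain ⟨z, ⟨t, ht, rfl⟩, hz⟩ := inter_frontier_nonempty hRc h1 h2
  refine ⟨_, hz, ?_⟩
  apply hp.eq_of hyK
  intro k hk
  rw [add_sub_cancel_left, inner_smul_left]
  simp only [conj_trivial]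
  exact mul_nonpos_of_nonneg_of_nonpos ht (hsup k hk)

end proj

/-! ### Polytopes given by finitely many half-spaces -/

/-- The polyhedron with outer unit normals and offsets listed in `T`. -/
def polyP (T : Finset (E3 × ℝ)) : Set E3 := {x | ∀ q ∈ T, inner ℝ q.1 x ≤ q.2}

/-- The face of the polyhedron lying in the plane of `q`. -/
def face (T : Finset (E3 × ℝ)) (q : E3 × ℝ) : Set E3 := {x | x ∈ polyP T ∧ inner ℝ q.1 x = q.2}

theorem polyP_closed (T : Finset (E3 × ℝ)) : IsClosed (polyP T) := by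
  have : polyP T = ⋂ q ∈ T, {x | inner ℝ q.1 x ≤ q.2} := by
    ext x; simp [polyP]
  rw [this]
  exact isClosed_biInter fun q _ => isClosed_le (by fun_prop) continuous_const

theorem polyP_convex (T : Finset (E3 × ℝ)) : Convex ℝ (polyP T) := by
  intro x hx y hy a b ha hb hab q hq
  have h1 := hx q hq
  have h2 := hy q hq
  rw [inner_add_right, inner_smul_right, inner_smul_right]
  calc a * inner ℝ q.1 x + b * inner ℝ q.1 y ≤ a * q.2 + b * q.2 := by
        gcongr
    _ = q.2 := by rw [← add_mul, hab, one_mul]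

theorem face_closed (T : Finset (E3 × ℝ)) (q : E3 × ℝ) : IsClosed (face T q) :=
  (polyP_closed T).inter (isClosed_eq (by fun_prop) continuous_const)

theorem frontier_polyP_subset (T : Finset (E3 × ℝ)) :
    frontier (polyP T) ⊆ ⋃ q ∈ T, face T q := by
  intro x hx
  rw [(polyP_closed T).frontier_eq] at hx
  by_contra hcon
  simp only [mem_iUnion, not_exists] at hcon
  apply hx.2
  have hopen : IsOpen (⋂ q ∈ T, {x : E3 | inner ℝ q.1 x < q.2}) :=
    isOpen_biInter_finset fun q _ => isOpen_lt (by fun_prop) continuous_const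
  rw [mem_interior]
  refine ⟨_, ?_, hopen, ?_⟩
  · intro y hy
    simp only [mem_iInter, mem_ofPred_eq] at hy
    intro q hq
    exact (hy q hq).le
  · simp only [mem_iInter, mem_ofPred_eq]
    intro q hq
    refine lt_of_le_of_ne (hx.1 q hq) fun h => hcon q hq ⟨hx.1, h⟩

theorem not_mem_interior_of_plane {K : Set E3} {u : E3} {b : ℝ} (hu : ‖u‖ = 1)
    (hK : ∀ x ∈ K, inner ℝ u x ≤ b) {x : E3} (hx : inner ℝ u x = b) : x ∉ interior K := by
  intro hi
  have hcont : Tendsto (fun s : ℝ => x + s • u) (𝓝[>] 0) (𝓝 x) := by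
    have : Continuous (fun s : ℝ => x + s • u) := by fun_prop
    have h := this.tendsto 0
    simp only [zero_smul, add_zero] at h
    exact h.mono_left nhdsWithin_le_nhds
  have hev := hcont.eventually (mem_interior_iff_mem_nhds.1 hi)
  obtain ⟨s, hs, hs0⟩ := (hev.and self_mem_nhdsWithin).exists
  have hs0' : 0 < s := hs0
  have h1 := hK _ hs
  rw [inner_add_right, inner_smul_right, hx, real_inner_self_eq_norm_sq, hu] at h1
  linarith

theorem face_subset_frontier {T : Finset (E3 × ℝ)} {q : E3 × ℝ} (hq : q ∈ T) (hu : ‖q.1‖ = 1) :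
    face T q ⊆ frontier (polyP T) := by
  intro x hx
  rw [(polyP_closed T).frontier_eq]
  exact ⟨hx.1, not_mem_interior_of_plane (K := polyP T) hu (fun y hy => hy q hq) hx.2⟩

theorem frontier_polyP_eq {T : Finset (E3 × ℝ)} (hT : ∀ q ∈ T, ‖q.1‖ = 1) :
    frontier (polyP T) = ⋃ q ∈ T, face T q := by
  apply (frontier_polyP_subset T).antisymm
  intro x hx
  simp only [mem_iUnion] at hx
  obtain ⟨q, hq, hx⟩ := hx
  exact face_subset_frontier hq (hT q hq) hx

/-- Separation of a compact convex set from the boundary of a neighbourhood by a polyhedron. -/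
theorem exists_polyP {D C : Set E3} (hD : Convex ℝ D) (hDc : IsCompact D) (hDne : D.Nonempty)
    (hC : IsCompact C) (hDC : D ⊆ interior C) :
    ∃ T : Finset (E3 × ℝ), (∀ q ∈ T, ‖q.1‖ = 1) ∧ D ⊆ polyP T ∧ polyP T ⊆ interior C := by
  classical
  have hsep : ∀ x : E3, x ∈ frontier C → ∃ q : E3 × ℝ, ‖q.1‖ = 1 ∧ (∀ a ∈ D, inner ℝ q.1 a ≤ q.2) ∧
      q.2 < inner ℝ q.1 x := by
    intro x hx
    have hxD : x ∉ D := fun h => hx.2 (hDC h)
    obtain ⟨f, s, hfs, hsx⟩ := geometric_hahn_banach_closed_point hD hDc.isClosed hxD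
    set w := (InnerProductSpace.toDual ℝ E3).symm f with hw
    have hfw : ∀ z, f z = inner ℝ w z := by
      intro z
      rw [hw, InnerProductSpace.toDual_symm_apply]
    obtain ⟨d, hd⟩ := hDne
    have hw0 : w ≠ 0 := by
      intro h0
      have := hfs d hd
      rw [hfw, h0] at this
      rw [hfw, h0] at hsx
      simp at this hsx
      linarith
    have hpos : 0 < ‖w‖ := norm_pos_iff.2 hw0
    refine ⟨(‖w‖⁻¹ • w, ‖w‖⁻¹ * s), ?_, ?_, ?_⟩
    · show ‖‖w‖⁻¹ • w‖ = 1
      rw [norm_smul, norm_inv, norm_norm, inv_mul_cancel₀ hpos.ne']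
    · intro a ha
      show inner ℝ (‖w‖⁻¹ • w) a ≤ ‖w‖⁻¹ * s
      rw [inner_smul_left]
      simp only [conj_trivial]
      have := (hfs a ha).le
      rw [hfw] at this
      exact mul_le_mul_of_nonneg_left this (by positivity)
    · show ‖w‖⁻¹ * s < inner ℝ (‖w‖⁻¹ • w) x
      rw [inner_smul_left]
      simp only [conj_trivial]
      rw [hfw] at hsx
      exact mul_lt_mul_of_pos_left hsx (by positivity)
  choose! q hq1 hq2 hq3 using hsep
  have hfc : IsCompact (frontier C) := hC.of_isClosed_subset isClosed_frontier hC.isClosed.frontier_subset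
  obtain ⟨t, ht, hcov⟩ := hfc.elim_nhds_subcover (fun x => {y | (q x).2 < inner ℝ (q x).1 y})
    (fun x hx => (isOpen_lt continuous_const (by fun_prop)).mem_nhds (hq3 x hx))
  refine ⟨t.image q, ?_, ?_, ?_⟩
  · intro p hp
    obtain ⟨x, hx, rfl⟩ := Finset.mem_image.1 hp
    exact hq1 x (ht x hx)
  · intro a ha p hp
    obtain ⟨x, hx, rfl⟩ := Finset.mem_image.1 hp
    exact hq2 x (ht x hx) a ha
  · by_contra hcon
    rw [not_subset] at hcon
    obtain ⟨z, hz, hzC⟩ := hcon
    obtain ⟨d, hd⟩ := hDne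
    have hdP : d ∈ polyP (t.image q) := by
      intro p hp
      obtain ⟨x, hx, rfl⟩ := Finset.mem_image.1 hp
      exact hq2 x (ht x hx) d hd
    obtain ⟨x, hxP, hx⟩ := inter_frontier_nonempty (t := interior C)
      (polyP_convex (t.image q)).isPreconnected ⟨d, hdP, hDC hd⟩ ⟨z, hz, hzC⟩
    have hx' : x ∈ frontier C := frontier_interior_subset hx
    have := hcov hx'
    simp only [mem_iUnion, mem_ofPred_eq] at this
    obtain ⟨y, hy, hlt⟩ := this
    have := hxP (q y) (Finset.mem_image_of_mem q hy)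
    linarith

/-! ### Planes as isometric images of `ℂ` -/

/-- A plane in space is an isometric image of the Euclidean plane `ℂ`. -/
theorem exists_plane_isometry {u : E3} (hu : ‖u‖ = 1) (b : ℝ) :
    ∃ ψ : ℂ →ᵃⁱ[ℝ] E3, range ψ = {x | inner ℝ u x = b} := by
  have hu0 : u ≠ 0 := by
    intro h; rw [h] at hu; simp at hu
  have : Fact (Module.finrank ℝ E3 = 2 + 1) := ⟨by simp⟩
  let B := OrthonormalBasis.fromOrthogonalSpanSingleton (𝕜 := ℝ) 2 hu0
  let e : ℂ ≃ₗᵢ[ℝ] (ℝ ∙ u)ᗮ := Complex.orthonormalBasisOneI.repr.trans B.repr.symm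
  let e' : ℂ →ₗᵢ[ℝ] E3 := (Submodule.subtypeₗᵢ _).comp e.toLinearIsometry
  refine ⟨(AffineIsometryEquiv.constVAdd ℝ E3 (b • u)).toAffineIsometry.comp
    e'.toAffineIsometry, ?_⟩
  have hform : ∀ z, ((AffineIsometryEquiv.constVAdd ℝ E3 (b • u)).toAffineIsometry.comp
    e'.toAffineIsometry) z = b • u + (e z : E3) := fun z => rfl
  ext x
  simp only [mem_range, mem_ofPred_eq]
  constructor
  · rintro ⟨z, rfl⟩
    rw [hform]
    have h := (Submodule.mem_orthogonal_singleton_iff_inner_right (𝕜 := ℝ) (u := u)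
      (v := (e z : E3))).1 (e z).2
    rw [inner_add_right, h, inner_smul_right, real_inner_self_eq_norm_sq, hu]
    ring
  · intro hx
    have hmem : x - b • u ∈ (ℝ ∙ u)ᗮ := by
      rw [Submodule.mem_orthogonal_singleton_iff_inner_right, inner_sub_right, hx,
        inner_smul_right, real_inner_self_eq_norm_sq, hu]
      ring
    refine ⟨e.symm ⟨x - b • u, hmem⟩, ?_⟩
    rw [hform, LinearIsometryEquiv.apply_symm_apply]
    simp

theorem muHE_complex : (μHE[2] : Measure ℂ) = volume := by
  have h := InnerProductSpace.euclideanHausdorffMeasure_eq_volume (V := ℂ)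
  rwa [Complex.finrank_real_complex] at h

theorem muHE_image {ψ : ℂ → E3} (hψ : Isometry ψ) (s : Set ℂ) :
    μHE[2] (ψ '' s) = volume s := by
  rw [hψ.euclideanHausdorffMeasure_image, muHE_complex]

theorem muHE_lipschitz_image {X Y : Type*} [EMetricSpace X] [MeasurableSpace X] [BorelSpace X]
    [EMetricSpace Y] [MeasurableSpace Y] [BorelSpace Y] {f : X → Y} (hf : LipschitzWith 1 f)
    (s : Set X) : μHE[2] (f '' s) ≤ μHE[2] s := by
  have h := (hf.lipschitzOnWith (s := s)).hausdorffMeasure_image_le (d := 2) (by norm_num)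
  simp only [ENNReal.coe_one, ENNReal.one_rpow, one_mul] at h
  rw [Measure.euclideanHausdorffMeasure_def, Measure.euclideanHausdorffMeasure_def,
    Measure.smul_apply, Measure.smul_apply]
  norm_cast
  gcongr

/-- The plane as an affine subspace. -/
def planeSub (q : E3 × ℝ) : AffineSubspace ℝ E3 where
  carrier := {x | inner ℝ q.1 x = q.2}
  smul_vsub_vadd_mem' := by
    intro c p1 p2 p3 h1 h2 h3
    simp only [mem_ofPred_eq] at h1 h2 h3 ⊢
    simp only [vsub_eq_sub, vadd_eq_add, inner_add_right, inner_smul_right, inner_sub_right, h1,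
      h2, h3]
    ring

theorem mem_planeSub (q : E3 × ℝ) (x : E3) : x ∈ planeSub q ↔ inner ℝ q.1 x = q.2 := Iff.rfl

/-- Two distinct bounding planes of a solid polyhedron are not contained in each other. -/
theorem plane_not_subset {T : Finset (E3 × ℝ)} (hT : ∀ q ∈ T, ‖q.1‖ = 1)
    (hne : (interior (polyP T)).Nonempty) {q q' : E3 × ℝ} (hq : q ∈ T) (hq' : q' ∈ T)
    (hqq : q ≠ q') : ¬ ∀ x, inner ℝ q.1 x = q.2 → inner ℝ q'.1 x = q'.2 := by
  intro hsub
  obtain ⟨x0, hx0⟩ := hne
  have h1 : inner ℝ q.1 x0 < q.2 := by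
    refine lt_of_le_of_ne (interior_subset hx0 q hq) fun h => ?_
    exact not_mem_interior_of_plane (K := polyP T) (hT q hq) (fun y hy => hy q hq) h hx0
  have h2 : inner ℝ q'.1 x0 < q'.2 := by
    refine lt_of_le_of_ne (interior_subset hx0 q' hq') fun h => ?_
    exact not_mem_interior_of_plane (K := polyP T) (hT q' hq') (fun y hy => hy q' hq') h hx0
  have huu : inner ℝ q.1 q.1 = (1 : ℝ) := by rw [real_inner_self_eq_norm_sq, hT q hq]; norm_num
  have huu' : inner ℝ q'.1 q'.1 = (1 : ℝ) := by
    rw [real_inner_self_eq_norm_sq, hT q' hq']; norm_num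
  set c : ℝ := inner ℝ q.1 q'.1 with hc
  set d : E3 := q'.1 - c • q.1 with hd
  have hqd : inner ℝ q.1 d = 0 := by
    rw [hd, inner_sub_right, inner_smul_right, huu, ← hc]; ring
  have hp : inner ℝ q.1 (q.2 • q.1) = q.2 := by rw [inner_smul_right, huu]; ring
  have hpd : inner ℝ q.1 (q.2 • q.1 + d) = q.2 := by rw [inner_add_right, hp, hqd]; ring
  have e1 := hsub _ hp
  have e2 := hsub _ hpd
  rw [inner_add_right, e1] at e2
  have hd0 : inner ℝ q'.1 d = 0 := by linarith
  have hdd : inner ℝ d d = 0 := by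
    nth_rw 1 [hd]
    rw [inner_sub_left, hd0, inner_smul_left, hqd]; simp
  have hd00 : d = 0 := inner_self_eq_zero.1 hdd
  have hq'c : q'.1 = c • q.1 := by
    have := hd00
    rw [hd] at this
    exact sub_eq_zero.1 this
  have hcc : c * c = 1 := by
    have := huu'
    rw [hq'c, inner_smul_left, inner_smul_right, huu] at this
    simpa using this
  have hc1 : c = 1 ∨ c = -1 := mul_self_eq_one_iff.1 hcc
  rcases hc1 with h | h
  · apply hqq
    rw [h, one_smul] at hq'c
    rw [hq'c, hp] at e1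
    exact Prod.ext hq'c.symm e1
  · rw [hq'c, h, inner_smul_left] at h2 e1
    rw [hp] at e1
    simp at h2 e1
    linarith

theorem face_inter_null {T : Finset (E3 × ℝ)} (hT : ∀ q ∈ T, ‖q.1‖ = 1)
    (hne : (interior (polyP T)).Nonempty) {q q' : E3 × ℝ} (hq : q ∈ T) (hq' : q' ∈ T)
    (hqq : q ≠ q') : μHE[2] (face T q ∩ face T q') = 0 := by
  obtain ⟨ψ, hψ⟩ := exists_plane_isometry (hT q hq) q.2
  have hsub : face T q ∩ face T q' ⊆ ψ '' ((planeSub q').comap ψ.toAffineMap : Set ℂ) := by
    rintro x ⟨⟨_, hx1⟩, ⟨_, hx2⟩⟩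
    have : x ∈ range ψ := by rw [hψ]; exact hx1
    obtain ⟨z, rfl⟩ := this
    exact ⟨z, hx2, rfl⟩
  refine measure_mono_null hsub ?_
  rw [muHE_image ψ.isometry]
  apply Measure.addHaar_affineSubspace
  intro htop
  apply plane_not_subset hT hne hq hq' hqq
  intro x hx
  have : x ∈ range ψ := by rw [hψ]; exact hx
  obtain ⟨z, rfl⟩ := this
  have hz : z ∈ (planeSub q').comap ψ.toAffineMap := by rw [htop]; trivial
  exact hz

theorem frontier_polyP_measure {T : Finset (E3 × ℝ)} (hT : ∀ q ∈ T, ‖q.1‖ = 1)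
    (hne : (interior (polyP T)).Nonempty) :
    μHE[2] (frontier (polyP T)) = ∑ q ∈ T, μHE[2] (face T q) := by
  rw [frontier_polyP_eq hT, measure_biUnion_finset₀]
  · intro q hq q' hq' hqq
    exact face_inter_null hT hne hq hq' hqq
  · intro q _
    exact (face_closed T q).measurableSet.nullMeasurableSet

theorem face_lift (T : Finset (E3 × ℝ)) {q : E3 × ℝ} (hu : ‖q.1‖ = 1)
    (hb : Bornology.IsBounded (polyP T)) :
    ∃ ψ : ℂ →ᵃⁱ[ℝ] E3, range ψ = {x | inner ℝ q.1 x = q.2} ∧ ∃ F : Set ℂ, IsCompact F ∧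
      ψ '' F = face T q := by
  obtain ⟨ψ, hψ⟩ := exists_plane_isometry hu q.2
  refine ⟨ψ, hψ, ψ ⁻¹' face T q, ?_, ?_⟩
  · have hcl : IsClosed (ψ ⁻¹' face T q) := (face_closed T q).preimage ψ.continuous
    have hbd : Bornology.IsBounded (ψ ⁻¹' face T q) := by
      have h1 : Bornology.IsBounded (face T q) := hb.subset fun x hx => hx.1
      exact ψ.isometry.antilipschitz.isBounded_preimage h1
    exact Metric.isCompact_of_isClosed_isBounded hcl hbd
  · rw [image_preimage_eq_iff, hψ]
    exact fun x hx => hx.2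

theorem face_measure_lt_top (T : Finset (E3 × ℝ)) {q : E3 × ℝ} (hu : ‖q.1‖ = 1)
    (hb : Bornology.IsBounded (polyP T)) : μHE[2] (face T q) < ⊤ := by
  obtain ⟨ψ, _, F, hF, hFq⟩ := face_lift T hu hb
  rw [← hFq, muHE_image ψ.isometry]
  exact hF.measure_lt_top

theorem homothety_frontier (K : Set E3) (c : E3) {t : ℝ} (ht : 0 < t) :
    μHE[2] (frontier (AffineMap.homothety c t '' K)) =
      ENNReal.ofReal (t ^ 2) * μHE[2] (frontier K) := by
  let e : E3 ≃ₜ E3 := ((Homeomorph.subRight c).trans (Homeomorph.smulOfNeZero t ht.ne')).trans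
    (Homeomorph.addRight c)
  have he : ∀ s : Set E3, AffineMap.homothety c t '' s = e '' s := by
    intro s
    apply image_congr
    intro x _
    rw [AffineMap.homothety_apply]
    rfl
  rw [he, ← e.image_frontier, ← he, euclideanHausdorffMeasure_homothety_image 2 c ht.ne']
  rw [ENNReal.smul_def, smul_eq_mul]
  congr 1
  rw [ENNReal.coe_pow, ENNReal.ofReal_pow ht.le]
  congr 1
  rw [ENNReal.ofReal, ENNReal.coe_inj]
  ext
  rw [coe_nnnorm, Real.norm_of_nonneg ht.le, Real.coe_toNNReal _ ht.le]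

/-- The nearest point projection shows monotonicity of the surface area of convex bodies. -/
theorem area_mono {K C : Set E3} (hK : Convex ℝ K) (hc : IsClosed K) (hne : (interior K).Nonempty)
    (hKC : K ⊆ C) (hC : Bornology.IsBounded C) : μHE[2] (frontier K) ≤ μHE[2] (frontier C) := by
  obtain ⟨p, hp⟩ := exists_isProj hK hc (hne.mono interior_subset)
  exact (measure_mono (frontier_subset_image hp hK hc hne hKC hC)).trans
    (muHE_lipschitz_image hp.lipschitz _)

theorem area_lt_top {K : Set E3} (hK : Convex ℝ K) (hcomp : IsCompact K)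
    (hne : (interior K).Nonempty) : μHE[2] (frontier K) < ⊤ := by
  obtain ⟨c, hc⟩ := hne
  have hsub := hK.subset_interior_image_homothety_of_one_lt hc 2 (by norm_num)
  have hCcomp : IsCompact (AffineMap.homothety c (2 : ℝ) '' K) :=
    hcomp.image (AffineMap.homothety_continuous c 2)
  obtain ⟨T, hT, h1, h2⟩ := exists_polyP hK hcomp ⟨c, interior_subset hc⟩ hCcomp hsub
  have hb : Bornology.IsBounded (polyP T) := hCcomp.isBounded.subset (h2.trans interior_subset)
  refine (area_mono hK hcomp.isClosed ⟨c, hc⟩ h1 hb).trans_lt ?_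
  rw [frontier_polyP_measure hT ⟨c, interior_mono h1 hc⟩]
  exact ENNReal.sum_lt_top.2 fun q hq => face_measure_lt_top T (hT q hq) hb


end Pool.Agent.Helper977.ConvexArea
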