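import Mathlib
import Pool.Agent.Helper977.ConvexArea

set_option autoImplicit false

open MeasureTheory Set Filter Topology
open scoped ENNReal NNReal Pointwise

namespace Pool.Agent.Helper977.SurfBisect

open Pool.Agent.Helper977.ConvexArea

/-- Asymmetric norms on Euclidean space. -/
structure IsGauge (g : E3 → ℝ) : Prop where
  add_le : ∀ x y, g (x + y) ≤ g x + g y
  smul : ∀ t : ℝ, 0 ≤ t → ∀ x, g (t • x) = t * g x
  pos : ∀ x, x ≠ 0 → 0 < g x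
  cont : Continuous g

theorem IsGauge.zero {g : E3 → ℝ} (hg : IsGauge g) : g 0 = 0 := by
  have := hg.smul 0 le_rfl 0
  simpa using this

theorem IsGauge.nonneg {g : E3 → ℝ} (hg : IsGauge g) (x : E3) : 0 ≤ g x := by
  by_cases hx : x = 0
  · rw [hx, hg.zero]
  · exact (hg.pos x hx).le

/-- One-sided estimate for strict differentiability of sublinear functions. -/
theorem strict_aux {g : E3 → ℝ} (hg : IsGauge g) {y₀ N : E3} {ε ρ : ℝ} (hρ : 0 < ρ)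
    (hd : ∀ y, ‖y - y₀‖ < 2 * ρ → |g y - g y₀ - inner ℝ N (y - y₀)| ≤ ε * ‖y - y₀‖)
    (hε : 0 < ε) {y₁ y₂ : E3} (h1 : ‖y₁ - y₀‖ < ρ) (h2 : ‖y₂ - y₀‖ < ρ) :
    g y₂ - g y₁ - inner ℝ N (y₂ - y₁) ≤ 3 * ε * ‖y₂ - y₁‖ := by
  by_cases hD0 : y₂ - y₁ = 0
  · have : y₂ = y₁ := sub_eq_zero.1 hD0
    rw [this]; simp
  have hD : 0 < ‖y₂ - y₁‖ := norm_pos_iff.2 hD0
  set D := ‖y₂ - y₁‖ with hDdef
  set s : ℝ := D / (D + ρ) with hs
  have hs0 : 0 ≤ s := by positivity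
  have hs1 : s ≤ 1 := by
    rw [hs, div_le_one (by positivity)]; linarith
  set y₃ : E3 := y₂ + (ρ / D) • (y₂ - y₁) with hy₃
  have hcomb : y₂ = (1 - s) • y₁ + s • y₃ := by
    have e : s * (ρ / D) = 1 - s := by
      rw [hs]; field_simp; ring
    rw [hy₃, smul_add, smul_smul, e]
    module
  have hconv : g y₂ ≤ (1 - s) * g y₁ + s * g y₃ := by
    nth_rw 1 [hcomb]
    refine (hg.add_le _ _).trans ?_
    rw [hg.smul _ (by linarith), hg.smul _ hs0]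
  have h3n : ‖y₃ - y₀‖ < 2 * ρ := by
    have : y₃ - y₀ = (y₂ - y₀) + (ρ / D) • (y₂ - y₁) := by rw [hy₃]; abel
    rw [this]
    refine (norm_add_le _ _).trans_lt ?_
    rw [norm_smul, Real.norm_of_nonneg (by positivity), ← hDdef, div_mul_cancel₀ _ hD.ne']
    linarith
  have f3 := (abs_le.1 (hd y₃ h3n)).2
  have f1 := (abs_le.1 (hd y₁ (by linarith))).1
  have f3' : g y₃ - g y₀ - inner ℝ N (y₃ - y₀) ≤ ε * (2 * ρ) :=
    f3.trans (by gcongr)
  have f1' : -(ε * ρ) ≤ g y₁ - g y₀ - inner ℝ N (y₁ - y₀) := by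
    have : ε * ‖y₁ - y₀‖ ≤ ε * ρ := by gcongr
    linarith
  have hin : inner ℝ N (y₂ - y₁) = s * inner ℝ N (y₃ - y₁) := by
    have : y₂ - y₁ = s • (y₃ - y₁) := by
      nth_rw 1 [hcomb]; module
    rw [this, inner_smul_right]
  have hin2 : inner ℝ N (y₃ - y₁) = inner ℝ N (y₃ - y₀) - inner ℝ N (y₁ - y₀) := by
    rw [← inner_sub_right]; congr 1; abel
  have hsρ : s * ρ ≤ D := by
    rw [hs, div_mul_eq_mul_div, div_le_iff₀ (by positivity)]
    nlinarith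
  have e1 : g y₂ - g y₁ - inner ℝ N (y₂ - y₁) ≤ s * (g y₃ - g y₁ - inner ℝ N (y₃ - y₁)) := by
    rw [hin]; nlinarith
  have e2 : g y₃ - g y₁ - inner ℝ N (y₃ - y₁) ≤ 3 * ε * ρ := by
    rw [hin2]; linarith
  calc g y₂ - g y₁ - inner ℝ N (y₂ - y₁) ≤ s * (g y₃ - g y₁ - inner ℝ N (y₃ - y₁)) := e1
    _ ≤ s * (3 * ε * ρ) := by gcongr
    _ = 3 * ε * (s * ρ) := by ring
    _ ≤ 3 * ε * D := by gcongr

/-- Sublinear functions are strictly differentiable wherever they are differentiable. -/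
theorem strict_of_gauge {g : E3 → ℝ} (hg : IsGauge g) {y₀ N : E3} (hd : HasGradientAt g N y₀)
    {ε : ℝ} (hε : 0 < ε) :
    ∃ ρ > 0, ∀ y₁ y₂, ‖y₁ - y₀‖ < ρ → ‖y₂ - y₀‖ < ρ →
      |g y₁ - g y₂ - inner ℝ N (y₁ - y₂)| ≤ ε * ‖y₁ - y₂‖ := by
  have h := (hasGradientAt_iff_isLittleO.1 hd).def (show 0 < ε / 3 by positivity)
  rw [Metric.eventually_nhds_iff] at h
  obtain ⟨δ, hδ, h⟩ := h
  refine ⟨δ / 2, by positivity, fun y₁ y₂ h1 h2 => ?_⟩
  have hd' : ∀ y, ‖y - y₀‖ < 2 * (δ / 2) →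
      |g y - g y₀ - inner ℝ N (y - y₀)| ≤ ε / 3 * ‖y - y₀‖ := by
    intro y hy
    have := h (y := y) (by rw [dist_eq_norm]; linarith)
    rwa [Real.norm_eq_abs] at this
  have k1 := strict_aux hg (by positivity) hd' (by positivity) h1 h2
  have k2 := strict_aux hg (by positivity) hd' (by positivity) h2 h1
  have k3 : inner ℝ N (y₂ - y₁) = - inner ℝ N (y₁ - y₂) := by
    rw [← inner_neg_right]; congr 1; abel
  rw [norm_sub_rev, k3] at k1
  rw [abs_le]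
  constructor <;> nlinarith [norm_nonneg (y₁ - y₂)]

/-- Radial projection onto the plane `⟪N, y⟫ = 1`. -/
noncomputable def rproj (N y : E3) : E3 := (inner ℝ N y)⁻¹ • y

theorem rproj_near {g : E3 → ℝ} (hg : IsGauge g) {y₀ N : E3} (hd : HasGradientAt g N y₀)
    (hN : inner ℝ N y₀ = 1) {ε : ℝ} (hε : 0 < ε) :
    ∃ ρ > 0, ∀ y₁ y₂, ‖y₁ - y₀‖ < ρ → ‖y₂ - y₀‖ < ρ → g y₁ = 1 → g y₂ = 1 →
      ‖rproj N y₁ - rproj N y₂ - (y₁ - y₂)‖ ≤ ε * ‖y₁ - y₂‖ := by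
  set η : ℝ := ε / (8 * (‖y₀‖ + 1)) with hη
  have hη0 : 0 < η := by positivity
  obtain ⟨ρ₁, hρ₁, hs⟩ := strict_of_gauge hg hd hη0
  set κ : ℝ := min ε 1 / (4 * (‖N‖ + 1)) with hκ
  have hmin : 0 < min ε 1 := lt_min hε one_pos
  have hκ0 : 0 < κ := by positivity
  refine ⟨min ρ₁ (min 1 κ), by positivity, fun y₁ y₂ h1 h2 g1 g2 => ?_⟩
  have bound : ∀ y, ‖y - y₀‖ < min ρ₁ (min 1 κ) → |inner ℝ N y - 1| ≤ min ε 1 / 4 := by
    intro y hy
    have e : inner ℝ N y - 1 = inner ℝ N (y - y₀) := by rw [inner_sub_right, hN]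
    rw [e]
    refine (abs_real_inner_le_norm _ _).trans ?_
    have : ‖y - y₀‖ ≤ κ := (hy.trans_le ((min_le_right _ _).trans (min_le_right _ _))).le
    calc ‖N‖ * ‖y - y₀‖ ≤ (‖N‖ + 1) * κ := by gcongr; linarith
      _ = min ε 1 / 4 := by rw [hκ]; field_simp
  have b1 := bound y₁ h1
  have b2 := bound y₂ h2
  set a₁ := inner ℝ N y₁ with ha₁
  set a₂ := inner ℝ N y₂ with ha₂
  have hm1 : min ε 1 ≤ 1 := min_le_right _ _
  have hmε : min ε 1 ≤ ε := min_le_left _ _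
  have a1pos : 3 / 4 ≤ a₁ := by
    have := (abs_le.1 b1).1; linarith
  have a2pos : 3 / 4 ≤ a₂ := by
    have := (abs_le.1 b2).1; linarith
  have hy2 : ‖y₂‖ ≤ ‖y₀‖ + 1 := by
    have e : y₂ = y₀ + (y₂ - y₀) := by abel
    rw [e]
    refine (norm_add_le _ _).trans ?_
    have : ‖y₂ - y₀‖ ≤ 1 := (h2.trans_le ((min_le_right _ _).trans (min_le_left _ _))).le
    linarith
  have hst := hs y₁ y₂ (h1.trans_le (min_le_left _ _)) (h2.trans_le (min_le_left _ _))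
  rw [g1, g2, sub_self, zero_sub, abs_neg, inner_sub_right] at hst
  have hdecomp : rproj N y₁ - rproj N y₂ - (y₁ - y₂) =
      (a₁⁻¹ - 1) • (y₁ - y₂) + ((a₂ - a₁) * (a₁⁻¹ * a₂⁻¹)) • y₂ := by
    have e : (a₂ - a₁) * (a₁⁻¹ * a₂⁻¹) = a₁⁻¹ - a₂⁻¹ := by
      field_simp
    rw [e]
    simp only [rproj, ← ha₁, ← ha₂]
    module
  rw [hdecomp]
  refine (norm_add_le _ _).trans ?_
  rw [norm_smul, norm_smul, Real.norm_eq_abs, Real.norm_eq_abs]
  have c1 : |a₁⁻¹ - 1| ≤ ε / 2 := by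
    have e : a₁⁻¹ - 1 = -(a₁ - 1) * a₁⁻¹ := by field_simp; ring
    rw [e, abs_mul, abs_neg, abs_of_pos (show 0 < a₁⁻¹ by positivity)]
    have : a₁⁻¹ ≤ 2 := by
      rw [inv_le_comm₀ (by positivity) (by norm_num)]; linarith
    calc |a₁ - 1| * a₁⁻¹ ≤ min ε 1 / 4 * 2 := by gcongr
      _ ≤ ε / 2 := by linarith
  have c2 : |(a₂ - a₁) * (a₁⁻¹ * a₂⁻¹)| * ‖y₂‖ ≤ ε / 2 * ‖y₁ - y₂‖ := by
    rw [abs_mul, abs_sub_comm, abs_of_pos (show 0 < a₁⁻¹ * a₂⁻¹ by positivity)]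
    have i1 : a₁⁻¹ ≤ 2 := by
      rw [inv_le_comm₀ (by positivity) (by norm_num)]; linarith
    have i2 : a₂⁻¹ ≤ 2 := by
      rw [inv_le_comm₀ (by positivity) (by norm_num)]; linarith
    calc |a₁ - a₂| * (a₁⁻¹ * a₂⁻¹) * ‖y₂‖ ≤ (η * ‖y₁ - y₂‖) * (2 * 2) * (‖y₀‖ + 1) := by
          gcongr
      _ = ε / 2 * ‖y₁ - y₂‖ := by rw [hη]; field_simp; ring
  calc |a₁⁻¹ - 1| * ‖y₁ - y₂‖ + |(a₂ - a₁) * (a₁⁻¹ * a₂⁻¹)| * ‖y₂‖
      ≤ ε / 2 * ‖y₁ - y₂‖ + ε / 2 * ‖y₁ - y₂‖ := by gcongr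
    _ = ε * ‖y₁ - y₂‖ := by ring

/-- The open cone over the ball of radius `r` about `u`. -/
def cone (u : E3) (r : ℝ) : Set E3 := ⋃ t ∈ Ioi (0 : ℝ), Metric.ball (t • u) (r * t)

theorem mem_cone {u : E3} {r : ℝ} {y : E3} :
    y ∈ cone u r ↔ ∃ t : ℝ, 0 < t ∧ ‖y - t • u‖ < r * t := by
  simp [cone, dist_eq_norm]

theorem cone_open (u : E3) (r : ℝ) : IsOpen (cone u r) :=
  isOpen_biUnion fun _ _ => Metric.isOpen_ball

theorem cone_measurable (u : E3) (r : ℝ) : MeasurableSet (cone u r) := (cone_open u r).measurableSet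

theorem smul_mem_cone {u : E3} {r : ℝ} {y : E3} (hy : y ∈ cone u r) {s : ℝ} (hs : 0 < s) :
    s • y ∈ cone u r := by
  rw [mem_cone] at hy ⊢
  obtain ⟨t, ht, h⟩ := hy
  refine ⟨s * t, by positivity, ?_⟩
  rw [mul_smul, ← smul_sub, norm_smul, Real.norm_of_nonneg hs.le]
  calc s * ‖y - t • u‖ < s * (r * t) := by gcongr
    _ = r * (s * t) := by ring

theorem neg_mem_cone {u : E3} {r : ℝ} {y : E3} : -y ∈ cone (-u) r ↔ y ∈ cone u r := by
  rw [mem_cone, mem_cone]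
  constructor
  · rintro ⟨t, ht, h⟩
    refine ⟨t, ht, ?_⟩
    rw [smul_neg, ← neg_sub', norm_neg] at h
    exact h
  · rintro ⟨t, ht, h⟩
    refine ⟨t, ht, ?_⟩
    rw [smul_neg, ← neg_sub', norm_neg]
    exact h

theorem exists_ball_of_mem_cone {u : E3} {r : ℝ} {y : E3} (hy : y ∈ cone u r) :
    ∃ t : ℝ, 0 < t ∧ ∃ z : E3, ‖z - u‖ < r ∧ y = t • z := by
  rw [mem_cone] at hy
  obtain ⟨t, ht, h⟩ := hy
  refine ⟨t, ht, t⁻¹ • y, ?_, ?_⟩
  · have : t⁻¹ • y - u = t⁻¹ • (y - t • u) := by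
      rw [smul_sub, smul_smul, inv_mul_cancel₀ ht.ne', one_smul]
    rw [this, norm_smul, Real.norm_of_nonneg (inv_pos.2 ht).le]
    calc t⁻¹ * ‖y - t • u‖ < t⁻¹ * (r * t) := by gcongr
      _ = r := by field_simp
  · rw [smul_smul, mul_inv_cancel₀ ht.ne', one_smul]

theorem cone_inner_pos {u : E3} (hu : u ≠ 0) {r : ℝ} (hr : r ≤ ‖u‖) {y : E3} (hy : y ∈ cone u r) :
    0 < inner ℝ y u := by
  obtain ⟨t, ht, z, hz, rfl⟩ := exists_ball_of_mem_cone hy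
  rw [inner_smul_left]
  simp only [conj_trivial]
  apply mul_pos ht
  have hpos : 0 < ‖u‖ := norm_pos_iff.2 hu
  have h1 : inner ℝ z u = inner ℝ (z - u) u + ‖u‖ ^ 2 := by
    rw [inner_sub_left, real_inner_self_eq_norm_sq]; ring
  have h2 := neg_le_of_abs_le (abs_real_inner_le_norm (z - u) u)
  rw [h1]
  nlinarith

theorem self_mem_cone (u : E3) {r : ℝ} (hr : 0 < r) : u ∈ cone u r := by
  rw [mem_cone]
  exact ⟨1, one_pos, by simpa using hr⟩

/-! ### Slicing a solid cone -/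

theorem lintegral_sq : ∫⁻ x in Ioc (0 : ℝ) 1, ENNReal.ofReal (x ^ 2) = ENNReal.ofReal (1 / 3) := by
  rw [← ofReal_integral_eq_lintegral_ofReal]
  · rw [← intervalIntegral.integral_of_le zero_le_one, integral_pow]
    norm_num
  · apply Continuous.integrableOn_Ioc
    fun_prop
  · exact ae_of_all _ fun x => by positivity

theorem muHE_smul (A : Set E3) {t : ℝ} (ht : 0 < t) :
    μHE[2] (t • A) = ENNReal.ofReal (t ^ 2) * μHE[2] A := by
  have h := Measure.euclideanHausdorffMeasure_smul₀ (E := E3) 2 ht.ne' A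
  rw [h, ENNReal.smul_def, smul_eq_mul]
  congr 1
  rw [ENNReal.coe_pow, ENNReal.ofReal_pow ht.le]
  congr 1
  rw [ENNReal.ofReal, ENNReal.coe_inj]
  ext
  rw [coe_nnnorm, Real.norm_of_nonneg ht.le, Real.coe_toNNReal _ ht.le]

theorem muHE_three : (μHE[3] : Measure E3) = volume := by
  have h := EuclideanSpace.euclideanHausdorffMeasure_eq_volume 3
  exact h

theorem slice {C : Set E3} (hCm : MeasurableSet C) {N : E3} (hN : N ≠ 0)
    (hC : ∀ y ∈ C, 0 < inner ℝ N y)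
    (hcone : ∀ y ∈ C, ∀ t : ℝ, 0 < t → t • y ∈ C) :
    ENNReal.ofReal (3 * ‖N‖) * volume (C ∩ {y | inner ℝ N y ≤ 1}) =
      μHE[2] (C ∩ {y | inner ℝ N y = 1}) := by
  have hpos : 0 < ‖N‖ := norm_pos_iff.2 hN
  set v : E3 := (‖N‖ ^ 2)⁻¹ • N with hv
  have hv0 : v ≠ 0 := by
    rw [hv]; exact smul_ne_zero (by positivity) hN
  have hNv : inner ℝ N v = 1 := by
    rw [hv, inner_smul_right, real_inner_self_eq_norm_sq]
    field_simp
  have hvn : ‖v‖ = ‖N‖⁻¹ := by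
    rw [hv, norm_smul, Real.norm_of_nonneg (by positivity)]
    field_simp
  have hm : MeasurableSet (C ∩ {y | inner ℝ N y ≤ 1}) :=
    hCm.inter (measurableSet_le (by fun_prop) measurable_const)
  have key := EuclideanGeometry.euclideanHausdorffMeasure_eq_lintegral (0 : E3) hv0 hm
  have hfr : Module.finrank ℝ E3 = 3 := by simp
  rw [hfr, muHE_three] at key
  rw [key]
  have hplane : ∀ x : ℝ, ((AffineSubspace.mk' (x • v +ᵥ (0 : E3)) (ℝ ∙ v)ᗮ : AffineSubspace ℝ E3) : Set E3)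
      = {y | inner ℝ N y = x} := by
    intro x
    ext y
    rw [SetLike.mem_coe, AffineSubspace.mem_mk', Submodule.mem_orthogonal_singleton_iff_inner_right]
    simp only [vadd_eq_add, add_zero, vsub_eq_sub, mem_ofPred_eq]
    rw [hv, inner_smul_left, inner_sub_right, inner_smul_right, inner_smul_right]
    simp only [conj_trivial]
    rw [real_inner_self_eq_norm_sq]
    constructor
    · intro h
      have h2 : (‖N‖ ^ 2)⁻¹ ≠ 0 := by positivity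
      have h3 := (mul_eq_zero.1 h).resolve_left h2
      field_simp at h3
      linarith
    · intro h
      rw [h]
      field_simp
      simp
  have hslice : ∀ x : ℝ, μHE[3 - 1] ((C ∩ {y | inner ℝ N y ≤ 1}) ∩
      (AffineSubspace.mk' (x • v +ᵥ (0 : E3)) (ℝ ∙ v)ᗮ : AffineSubspace ℝ E3)) =
      (Ioc (0 : ℝ) 1).indicator (fun x => ENNReal.ofReal (x ^ 2) *
        μHE[2] (C ∩ {y | inner ℝ N y = 1})) x := by
    intro x
    rw [hplane]
    by_cases hx : x ∈ Ioc (0 : ℝ) 1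
    · rw [indicator_of_mem hx, ← muHE_smul _ hx.1]
      congr 1
      ext y
      rw [mem_smul_set_iff_inv_smul_mem₀ hx.1.ne']
      simp only [mem_inter_iff, mem_ofPred_eq, inner_smul_right]
      constructor
      · rintro ⟨⟨h1, h2⟩, h3⟩
        refine ⟨hcone y h1 _ (inv_pos.2 hx.1), ?_⟩
        rw [h3]
        exact inv_mul_cancel₀ hx.1.ne'
      · rintro ⟨h1, h2⟩
        have h3 : inner ℝ N y = x := by
          have := hx.1.ne'
          field_simp at h2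
          exact h2
        have h4 := hcone _ h1 x hx.1
        rw [smul_smul, mul_inv_cancel₀ hx.1.ne', one_smul] at h4
        exact ⟨⟨h4, h3.le.trans hx.2⟩, h3⟩
    · rw [indicator_of_notMem hx]
      have : (C ∩ {y | inner ℝ N y ≤ 1}) ∩ {y | inner ℝ N y = x} = ∅ := by
        rw [eq_empty_iff_forall_notMem]
        rintro y ⟨⟨h1, h2⟩, h3⟩
        apply hx
        simp only [mem_ofPred_eq] at h2 h3
        rw [← h3]
        exact ⟨hC y h1, h2⟩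
      rw [this]; simp
  simp_rw [hslice]
  rw [lintegral_indicator measurableSet_Ioc, lintegral_mul_const _ (by fun_prop), lintegral_sq,
    ← mul_assoc, ← mul_assoc]
  have e1 : ENNReal.ofReal (3 * ‖N‖) * ‖v‖ₑ * ENNReal.ofReal (1 / 3) = 1 := by
    rw [← ofReal_norm, hvn, ← ENNReal.ofReal_mul (by positivity), ← ENNReal.ofReal_mul (by positivity)]
    rw [← ENNReal.ofReal_one]
    congr 1
    field_simp
  rw [e1, one_mul]

end Pool.Agent.Helper977.SurfBisect
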