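import Mathlib
import Pool.Agent.Helper977.SurfA

set_option autoImplicit false

open MeasureTheory Set Filter Topology
open scoped ENNReal NNReal Pointwise

namespace Pool.Agent.Helper977.SurfBisect

open Pool.Agent.Helper977.ConvexArea

theorem grad_smul {g : E3 → ℝ} (hg : IsGauge g) {u N : E3} (hd : HasGradientAt g N u) {t : ℝ}
    (ht : 0 < t) : HasGradientAt g N (t • u) := by
  rw [hasGradientAt_iff_hasFDerivAt] at hd ⊢
  have h1 : HasFDerivAt (fun y : E3 => t⁻¹ • y) (t⁻¹ • ContinuousLinearMap.id ℝ E3) (t • u) :=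
    (hasFDerivAt_id (t • u)).const_smul t⁻¹
  have h2 : HasFDerivAt g ((InnerProductSpace.toDual ℝ E3) N) (t⁻¹ • (t • u)) := by
    rw [smul_smul, inv_mul_cancel₀ ht.ne', one_smul]; exact hd
  have h3 := (h2.comp (t • u) h1).const_mul t
  have e1 : (fun y => t * (g ∘ fun y : E3 => t⁻¹ • y) y) = g := by
    ext y
    simp only [Function.comp]
    rw [hg.smul _ (inv_pos.2 ht).le, ← mul_assoc, mul_inv_cancel₀ ht.ne', one_mul]
  rw [e1] at h3
  convert! h3 using 1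
  ext y
  simp only [_root_.smul_apply, ContinuousLinearMap.comp_apply,
    ContinuousLinearMap.id_apply, map_smul, smul_eq_mul]
  rw [← mul_assoc, mul_inv_cancel₀ ht.ne', one_mul]

theorem line_deriv {g : E3 → ℝ} {u N : E3} (hd : HasGradientAt g N u) (v : E3) :
    HasDerivAt (fun t : ℝ => g (u + t • v)) (inner ℝ N v) 0 := by
  rw [hasGradientAt_iff_hasFDerivAt] at hd
  have h1 : HasDerivAt (fun t : ℝ => u + t • v) v 0 := by
    have := ((hasDerivAt_id (0 : ℝ)).smul_const v).const_add u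
    simpa using this
  have h2 : HasFDerivAt g ((InnerProductSpace.toDual ℝ E3) N) (u + (0 : ℝ) • v) := by
    simpa using hd
  have h3 := h2.comp_hasDerivAt (0 : ℝ) h1
  simpa [Function.comp_def] using h3

/-- Euler's relation. -/
theorem euler {g : E3 → ℝ} (hg : IsGauge g) {u N : E3} (hd : HasGradientAt g N u) :
    inner ℝ N u = g u := by
  have h1 := line_deriv hd u
  have h2 : HasDerivAt (fun t : ℝ => (1 + t) * g u) (g u) 0 := by
    have := ((hasDerivAt_id (0 : ℝ)).const_add 1).mul_const (g u)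
    simpa using this
  have h3 : (fun t : ℝ => g (u + t • u)) =ᶠ[𝓝 0] (fun t : ℝ => (1 + t) * g u) := by
    have : ∀ᶠ t : ℝ in 𝓝 0, -1 < t := lt_mem_nhds (by norm_num)
    filter_upwards [this] with t ht
    rw [← hg.smul (1 + t) (by linarith)]
    congr 1; module
  exact (h1.congr_of_eventuallyEq h3.symm).unique h2

/-- Gradients are subgradients. -/
theorem subgrad {g : E3 → ℝ} (hg : IsGauge g) {u N : E3} (hd : HasGradientAt g N u) (y : E3) :
    g u + inner ℝ N (y - u) ≤ g y := by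
  have h := (line_deriv hd (y - u)).tendsto_slope_zero_right
  have hle : ∀ᶠ t : ℝ in 𝓝[>] 0, t⁻¹ • (g (u + (0 + t) • (y - u)) - g (u + (0 : ℝ) • (y - u))) ≤
      g y - g u := by
    have h1 : ∀ᶠ t : ℝ in 𝓝[>] 0, t < 1 := nhdsWithin_le_nhds (gt_mem_nhds one_pos)
    filter_upwards [h1, self_mem_nhdsWithin] with t ht1 ht0
    have ht0' : 0 < t := ht0
    rw [zero_add, zero_smul, add_zero, smul_eq_mul, inv_mul_le_iff₀ ht0']
    have e : u + t • (y - u) = (1 - t) • u + t • y := by module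
    have h2 := hg.add_le ((1 - t) • u) (t • y)
    rw [hg.smul _ (by linarith), hg.smul _ ht0'.le, ← e] at h2
    linarith
  have := le_of_tendsto h hle
  linarith

theorem muHE_lipOn {S : Set E3} {f : E3 → E3} {L : ℝ} (hL : 0 ≤ L)
    (h : ∀ x ∈ S, ∀ y ∈ S, ‖f x - f y‖ ≤ L * ‖x - y‖) :
    μHE[2] (f '' S) ≤ ENNReal.ofReal (L ^ 2) * μHE[2] S := by
  have hl : LipschitzOnWith (Real.toNNReal L) f S := by
    apply LipschitzOnWith.of_dist_le_mul
    intro x hx y hy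
    rw [dist_eq_norm, dist_eq_norm, Real.coe_toNNReal _ hL]
    exact h x hx y hy
  have h2 := hl.hausdorffMeasure_image_le (d := 2) (by norm_num)
  rw [Measure.euclideanHausdorffMeasure_def, Measure.smul_apply, Measure.smul_apply]
  norm_cast
  have e : ((Real.toNNReal L : ℝ≥0) : ℝ≥0∞) ^ (2 : ℝ) = ENNReal.ofReal (L ^ 2) := by
    rw [ENNReal.ofReal_pow hL]
    norm_cast
  rw [e] at h2
  rw [mul_smul_comm]
  gcongr

theorem muHE_bilip {S : Set E3} {P : E3 → E3} {ε : ℝ} (hε : 0 ≤ ε) (hε1 : ε < 1)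
    (h : ∀ y₁ ∈ S, ∀ y₂ ∈ S, ‖P y₁ - P y₂ - (y₁ - y₂)‖ ≤ ε * ‖y₁ - y₂‖) :
    μHE[2] (P '' S) ≤ ENNReal.ofReal ((1 + ε) ^ 2) * μHE[2] S ∧
      ENNReal.ofReal ((1 - ε) ^ 2) * μHE[2] S ≤ μHE[2] (P '' S) := by
  have hup : ∀ y₁ ∈ S, ∀ y₂ ∈ S, ‖P y₁ - P y₂‖ ≤ (1 + ε) * ‖y₁ - y₂‖ := by
    intro y₁ h1 y₂ h2
    have e : P y₁ - P y₂ = (P y₁ - P y₂ - (y₁ - y₂)) + (y₁ - y₂) := by abel
    rw [e]
    refine (norm_add_le _ _).trans ?_
    have := h y₁ h1 y₂ h2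
    linarith
  have hlo : ∀ y₁ ∈ S, ∀ y₂ ∈ S, (1 - ε) * ‖y₁ - y₂‖ ≤ ‖P y₁ - P y₂‖ := by
    intro y₁ h1 y₂ h2
    have e : y₁ - y₂ = (P y₁ - P y₂) - (P y₁ - P y₂ - (y₁ - y₂)) := by abel
    have := h y₁ h1 y₂ h2
    have h3 : ‖y₁ - y₂‖ ≤ ‖P y₁ - P y₂‖ + ‖P y₁ - P y₂ - (y₁ - y₂)‖ := by
      nth_rw 1 [e]
      exact norm_sub_le _ _
    linarith
  refine ⟨muHE_lipOn (by linarith) hup, ?_⟩
  have hinj : InjOn P S := by
    intro y₁ h1 y₂ h2 he
    have := hlo y₁ h1 y₂ h2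
    rw [he, sub_self, norm_zero] at this
    have h3 : ‖y₁ - y₂‖ = 0 := by
      have := norm_nonneg (y₁ - y₂)
      nlinarith
    exact sub_eq_zero.1 (norm_eq_zero.1 h3)
  by_cases hne : S.Nonempty
  swap
  · rw [not_nonempty_iff_eq_empty] at hne
    rw [hne]; simp
  obtain ⟨s0, hs0⟩ := hne
  have : Nonempty S := ⟨⟨s0, hs0⟩⟩
  set Q := Function.invFunOn P S with hQ
  have hQP : ∀ y ∈ S, Q (P y) = y := fun y hy => hinj.leftInvOn_invFunOn hy
  have himg : Q '' (P '' S) = S := by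
    ext y
    constructor
    · rintro ⟨_, ⟨z, hz, rfl⟩, rfl⟩
      rw [hQP z hz]; exact hz
    · intro hy
      exact ⟨P y, ⟨y, hy, rfl⟩, hQP y hy⟩
  have h1e : 0 < 1 - ε := by linarith
  have hQl : ∀ x ∈ P '' S, ∀ y ∈ P '' S, ‖Q x - Q y‖ ≤ (1 - ε)⁻¹ * ‖x - y‖ := by
    rintro _ ⟨x, hx, rfl⟩ _ ⟨y, hy, rfl⟩
    rw [hQP x hx, hQP y hy, le_inv_mul_iff₀ h1e]
    exact hlo x hx y hy
  have hm := muHE_lipOn (inv_pos.2 h1e).le hQl
  rw [himg] at hm
  calc ENNReal.ofReal ((1 - ε) ^ 2) * μHE[2] S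
      ≤ ENNReal.ofReal ((1 - ε) ^ 2) * (ENNReal.ofReal ((1 - ε)⁻¹ ^ 2) * μHE[2] (P '' S)) := by
        gcongr
    _ = μHE[2] (P '' S) := by
        rw [← mul_assoc, ← ENNReal.ofReal_mul (by positivity)]
        have : (1 - ε) ^ 2 * (1 - ε)⁻¹ ^ 2 = 1 := by
          rw [← mul_pow, mul_inv_cancel₀ h1e.ne', one_pow]
        rw [this, ENNReal.ofReal_one, one_mul]

theorem cone_near {g : E3 → ℝ} (hg : IsGauge g) {u : E3} (hu : u ≠ 0) {ρ : ℝ} (hρ : 0 < ρ) :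
    ∃ r₀ > 0, ∀ r ≤ r₀, ∀ y ∈ cone u r, g y = 1 → ‖y - (g u)⁻¹ • u‖ < ρ := by
  have hgu := hg.pos u hu
  have hc : ContinuousAt (fun z : E3 => (g z)⁻¹ • z) u :=
    (hg.cont.continuousAt.inv₀ hgu.ne').smul continuousAt_id
  rw [Metric.continuousAt_iff] at hc
  obtain ⟨δ, hδ, h⟩ := hc ρ hρ
  refine ⟨δ, hδ, fun r hr y hy hy1 => ?_⟩
  obtain ⟨t, ht, z, hz, rfl⟩ := exists_ball_of_mem_cone hy
  have h1 := h (x := z) (by rw [dist_eq_norm]; linarith)
  rw [dist_eq_norm] at h1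
  have h2 : g z = t⁻¹ := by
    rw [hg.smul t ht.le] at hy1
    field_simp
    linarith
  rw [h2, inv_inv] at h1
  exact h1

theorem cone_compare {g : E3 → ℝ} (hg : IsGauge g) {u N : E3} (hu : u ≠ 0)
    (hd : HasGradientAt g N u) {ε : ℝ} (hε : 0 < ε) (hε1 : ε < 1) :
    ∃ r₀ > 0, ∀ r ≤ r₀,
      (∀ y ∈ cone u r, 0 < inner ℝ N y) ∧
      μHE[2] (cone u r ∩ {y | inner ℝ N y = 1}) ≤
        ENNReal.ofReal ((1 + ε) ^ 2) * μHE[2] (cone u r ∩ {y | g y = 1}) ∧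
      ENNReal.ofReal ((1 - ε) ^ 2) * μHE[2] (cone u r ∩ {y | g y = 1}) ≤
        μHE[2] (cone u r ∩ {y | inner ℝ N y = 1}) := by
  have hgu := hg.pos u hu
  have hNu := euler hg hd
  have hd' := grad_smul hg hd (inv_pos.2 hgu)
  have hN1 : inner ℝ N ((g u)⁻¹ • u) = 1 := by
    rw [inner_smul_right, hNu, inv_mul_cancel₀ hgu.ne']
  obtain ⟨ρ, hρ, hP⟩ := rproj_near hg hd' hN1 hε
  obtain ⟨r₁, hr₁, hnear⟩ := cone_near hg hu hρ
  have hN0 : 0 < ‖N‖ := by
    apply norm_pos_iff.2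
    rintro rfl
    rw [inner_zero_left] at hNu
    linarith
  refine ⟨min r₁ (g u / (‖N‖ + 1)), by positivity, fun r hr => ?_⟩
  have hpos : ∀ y ∈ cone u r, 0 < inner ℝ N y := by
    intro y hy
    obtain ⟨t, ht, z, hz, rfl⟩ := exists_ball_of_mem_cone hy
    rw [inner_smul_right]
    apply mul_pos ht
    have h1 : inner ℝ N z = inner ℝ N (z - u) + g u := by
      rw [inner_sub_right, hNu]; ring
    have h2 := neg_le_of_abs_le (abs_real_inner_le_norm N (z - u))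
    have h3 : ‖z - u‖ < g u / (‖N‖ + 1) := hz.trans_le (hr.trans (min_le_right _ _))
    rw [lt_div_iff₀ (by positivity)] at h3
    rw [h1]
    nlinarith [norm_nonneg (z - u)]
  refine ⟨hpos, ?_⟩
  have himg : rproj N '' (cone u r ∩ {y | g y = 1}) = cone u r ∩ {y | inner ℝ N y = 1} := by
    ext a
    constructor
    · rintro ⟨y, ⟨hy, _⟩, rfl⟩
      have := hpos y hy
      refine ⟨smul_mem_cone hy (inv_pos.2 this), ?_⟩
      simp only [mem_ofPred_eq, rproj, inner_smul_right]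
      exact inv_mul_cancel₀ this.ne'
    · rintro ⟨ha, ha1⟩
      simp only [mem_ofPred_eq] at ha1
      have ha0 : a ≠ 0 := by
        rintro rfl
        rw [inner_zero_right] at ha1
        exact zero_ne_one ha1
      have hga := hg.pos a ha0
      refine ⟨(g a)⁻¹ • a, ⟨smul_mem_cone ha (inv_pos.2 hga), ?_⟩, ?_⟩
      · simp only [mem_ofPred_eq]
        rw [hg.smul _ (inv_pos.2 hga).le, inv_mul_cancel₀ hga.ne']
      · rw [rproj, inner_smul_right, ha1, mul_one, inv_inv, smul_smul, mul_inv_cancel₀ hga.ne',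
          one_smul]
  have hb := muHE_bilip (S := cone u r ∩ {y | g y = 1}) (P := rproj N) hε.le hε1
    (fun y₁ h1 y₂ h2 => hP y₁ y₂ (hnear r (hr.trans (min_le_left _ _)) y₁ h1.1 h1.2)
      (hnear r (hr.trans (min_le_left _ _)) y₂ h2.1 h2.2) h1.2 h2.2)
  rw [himg] at hb
  exact hb

end Pool.Agent.Helper977.SurfBisect
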