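import Mathlib
import Pool.Agent.Helper977.SurfB

set_option autoImplicit false

open MeasureTheory Set Filter Topology
open scoped ENNReal NNReal Pointwise

namespace Pool.Agent.Helper977.SurfBisect

open Pool.Agent.Helper977.ConvexArea

theorem vol_smul (A : Set E3) {t : ℝ} (ht : 0 ≤ t) :
    volume (t • A) = ENNReal.ofReal (t ^ 3) * volume A := by
  have h := Measure.addHaar_smul_of_nonneg (volume : Measure E3) ht A
  have hfr : Module.finrank ℝ E3 = 3 := by simp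
  rw [hfr] at h
  exact h

theorem ratio_near {N u : E3} (hu : u ≠ 0) (hN : 0 < inner ℝ N u) {ε : ℝ} (hε : 0 < ε) :
    ∃ r₀ > 0, ∀ z : E3, ‖z - u‖ < r₀ → 0 < inner ℝ N z ∧
      ‖z‖ ≤ (1 + ε) * (‖u‖ / inner ℝ N u) * inner ℝ N z ∧
      (1 - ε) * (‖u‖ / inner ℝ N u) * inner ℝ N z ≤ ‖z‖ := by
  have hun : 0 < ‖u‖ := norm_pos_iff.2 hu
  have h1 : ∀ᶠ z in 𝓝 u, 0 < inner ℝ N z := by
    have : Continuous fun z : E3 => inner ℝ N z := by fun_prop
    exact this.continuousAt.eventually (lt_mem_nhds hN)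
  have h2 : ∀ᶠ z in 𝓝 u, ‖z‖ < (1 + ε) * (‖u‖ / inner ℝ N u) * inner ℝ N z := by
    have : Continuous fun z : E3 => (1 + ε) * (‖u‖ / inner ℝ N u) * inner ℝ N z - ‖z‖ := by
      fun_prop
    have h0 : 0 < (1 + ε) * (‖u‖ / inner ℝ N u) * inner ℝ N u - ‖u‖ := by
      have : (1 + ε) * (‖u‖ / inner ℝ N u) * inner ℝ N u - ‖u‖ = ε * ‖u‖ := by
        field_simp; ring
      rw [this]; positivity
    filter_upwards [this.continuousAt.eventually (lt_mem_nhds h0)] with z hz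
    linarith
  have h3 : ∀ᶠ z in 𝓝 u, (1 - ε) * (‖u‖ / inner ℝ N u) * inner ℝ N z < ‖z‖ := by
    have : Continuous fun z : E3 => ‖z‖ - (1 - ε) * (‖u‖ / inner ℝ N u) * inner ℝ N z := by
      fun_prop
    have h0 : 0 < ‖u‖ - (1 - ε) * (‖u‖ / inner ℝ N u) * inner ℝ N u := by
      have : ‖u‖ - (1 - ε) * (‖u‖ / inner ℝ N u) * inner ℝ N u = ε * ‖u‖ := by
        field_simp; ring
      rw [this]; positivity
    filter_upwards [this.continuousAt.eventually (lt_mem_nhds h0)] with z hz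
    linarith
  obtain ⟨r₀, hr₀, h⟩ := Metric.eventually_nhds_iff.1 (h1.and (h2.and h3))
  refine ⟨r₀, hr₀, fun z hz => ?_⟩
  have := h (y := z) (by rw [dist_eq_norm]; exact hz)
  exact ⟨this.1, this.2.1.le, this.2.2.le⟩

/-- Comparison of the part of the surface in a thin cone with the volume of the cone. -/
theorem density {g : E3 → ℝ} (hg : IsGauge g) {u N : E3} (hu : u ≠ 0)
    (hd : HasGradientAt g N u) {ε : ℝ} (hε : 0 < ε) (hε1 : ε < 1) :
    ∃ r₀ > 0, ∀ r ≤ r₀,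
      ENNReal.ofReal ((1 - ε) ^ 2) * μHE[2] (cone u r ∩ {y | g y = 1}) ≤
        ENNReal.ofReal (3 * ‖N‖ * (‖u‖ / g u) ^ 3 * (1 + ε) ^ 3) *
          volume (cone u r ∩ Metric.closedBall 0 1) ∧
      ENNReal.ofReal (3 * ‖N‖ * (‖u‖ / g u) ^ 3 * (1 - ε) ^ 3) *
          volume (cone u r ∩ Metric.closedBall 0 1) ≤
        ENNReal.ofReal ((1 + ε) ^ 2) * μHE[2] (cone u r ∩ {y | g y = 1}) := by
  have hgu := hg.pos u hu
  have hNu := euler hg hd
  have hun : 0 < ‖u‖ := norm_pos_iff.2 hu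
  have hN0 : N ≠ 0 := by
    rintro rfl
    rw [inner_zero_left] at hNu
    linarith
  obtain ⟨r₁, hr₁, h1⟩ := cone_compare hg hu hd hε hε1
  obtain ⟨r₂, hr₂, h2⟩ := ratio_near hu (by rw [hNu]; exact hgu) hε (N := N)
  rw [hNu] at h2
  refine ⟨min r₁ r₂, by positivity, fun r hr => ?_⟩
  obtain ⟨hpos, hA, hB⟩ := h1 r (hr.trans (min_le_left _ _))
  have hsl := slice (cone_measurable u r) hN0 hpos (fun y hy t ht => smul_mem_cone hy ht)
  rw [← hsl] at hA hB
  have hcm : 0 < (1 - ε) * (‖u‖ / g u) := by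
    have : 0 < 1 - ε := by linarith
    positivity
  have hcp : 0 < (1 + ε) * (‖u‖ / g u) := by positivity
  have hzz : ∀ y ∈ cone u r, ‖y‖ ≤ (1 + ε) * (‖u‖ / g u) * inner ℝ N y ∧
      (1 - ε) * (‖u‖ / g u) * inner ℝ N y ≤ ‖y‖ := by
    intro y hy
    obtain ⟨t, ht, z, hz, rfl⟩ := exists_ball_of_mem_cone hy
    obtain ⟨-, e1, e2⟩ := h2 z (hz.trans_le (hr.trans (min_le_right _ _)))
    rw [norm_smul, Real.norm_of_nonneg ht.le, inner_smul_right]
    constructor
    · calc t * ‖z‖ ≤ t * ((1 + ε) * (‖u‖ / g u) * inner ℝ N z) := by gcongr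
        _ = _ := by ring
    · calc (1 - ε) * (‖u‖ / g u) * (t * inner ℝ N z) = t * ((1 - ε) * (‖u‖ / g u) * inner ℝ N z) := by
            ring
        _ ≤ t * ‖z‖ := by gcongr
  have hsub1 : cone u r ∩ {y | inner ℝ N y ≤ 1} ⊆
      ((1 + ε) * (‖u‖ / g u)) • (cone u r ∩ Metric.closedBall 0 1) := by
    rintro y ⟨hy, hy1⟩
    simp only [mem_ofPred_eq] at hy1
    rw [mem_smul_set_iff_inv_smul_mem₀ hcp.ne']
    refine ⟨smul_mem_cone hy (inv_pos.2 hcp), ?_⟩
    rw [mem_closedBall_zero_iff, norm_smul, Real.norm_of_nonneg (inv_pos.2 hcp).le,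
      inv_mul_le_iff₀ hcp, mul_one]
    refine (hzz y hy).1.trans ?_
    calc (1 + ε) * (‖u‖ / g u) * inner ℝ N y ≤ (1 + ε) * (‖u‖ / g u) * 1 := by gcongr
      _ = _ := by ring
  have hsub2 : ((1 - ε) * (‖u‖ / g u)) • (cone u r ∩ Metric.closedBall 0 1) ⊆
      cone u r ∩ {y | inner ℝ N y ≤ 1} := by
    rintro _ ⟨b, ⟨hb, hb1⟩, rfl⟩
    rw [mem_closedBall_zero_iff] at hb1
    refine ⟨smul_mem_cone hb hcm, ?_⟩
    simp only [mem_ofPred_eq, inner_smul_right]
    exact (hzz b hb).2.trans hb1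
  have hv1 := measure_mono (μ := (volume : Measure E3)) hsub1
  have hv2 := measure_mono (μ := (volume : Measure E3)) hsub2
  rw [vol_smul _ hcp.le] at hv1
  rw [vol_smul _ hcm.le] at hv2
  constructor
  · refine hB.trans ?_
    calc ENNReal.ofReal (3 * ‖N‖) * volume (cone u r ∩ {y | inner ℝ N y ≤ 1})
        ≤ ENNReal.ofReal (3 * ‖N‖) * (ENNReal.ofReal (((1 + ε) * (‖u‖ / g u)) ^ 3) *
          volume (cone u r ∩ Metric.closedBall 0 1)) := by gcongr
      _ = _ := by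
        rw [← mul_assoc, ← ENNReal.ofReal_mul (by positivity)]
        congr 2
        ring
  · refine le_trans ?_ hA
    calc ENNReal.ofReal (3 * ‖N‖ * (‖u‖ / g u) ^ 3 * (1 - ε) ^ 3) *
          volume (cone u r ∩ Metric.closedBall 0 1)
        = ENNReal.ofReal (3 * ‖N‖) * (ENNReal.ofReal (((1 - ε) * (‖u‖ / g u)) ^ 3) *
          volume (cone u r ∩ Metric.closedBall 0 1)) := by
          rw [← mul_assoc, ← ENNReal.ofReal_mul (by positivity)]
          congr 2
          ring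
      _ ≤ _ := by gcongr

theorem neg_cone (u : E3) (r : ℝ) : -cone u r = cone (-u) r := by
  ext y
  rw [Set.mem_neg]
  conv_rhs => rw [← neg_neg y]
  exact (neg_mem_cone (u := u) (r := r) (y := -y)).symm

theorem vol_cone_neg (u : E3) (r : ℝ) : volume (cone (-u) r ∩ Metric.closedBall 0 1) =
    volume (cone u r ∩ Metric.closedBall (0 : E3) 1) := by
  have h : cone (-u) r ∩ Metric.closedBall 0 1 = -(cone u r ∩ Metric.closedBall (0 : E3) 1) := by
    rw [inter_neg, neg_cone]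
    simp
  rw [h, Measure.measure_neg]

theorem vol_cone_pos (u : E3) {r : ℝ} (hr : 0 < r) :
    0 < volume (cone u r ∩ Metric.closedBall (0 : E3) 1) := by
  have hne : (cone u r ∩ Metric.ball (0 : E3) 1).Nonempty := by
    by_cases hu : u = 0
    · exact ⟨u, self_mem_cone u hr, by rw [hu]; simp⟩
    · have hun : 0 < ‖u‖ := norm_pos_iff.2 hu
      refine ⟨(2 * ‖u‖)⁻¹ • u, smul_mem_cone (self_mem_cone u hr) (by positivity), ?_⟩
      rw [mem_ball_zero_iff, norm_smul, Real.norm_of_nonneg (by positivity)]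
      have : (2 * ‖u‖)⁻¹ * ‖u‖ = 1 / 2 := by field_simp
      rw [this]; norm_num
  have ho : IsOpen (cone u r ∩ Metric.ball (0 : E3) 1) := (cone_open u r).inter Metric.isOpen_ball
  exact (ho.measure_pos volume hne).trans_le
    (measure_mono (inter_subset_inter_right _ Metric.ball_subset_closedBall))

theorem vol_cone_lt_top (u : E3) (r : ℝ) :
    volume (cone u r ∩ Metric.closedBall (0 : E3) 1) < ⊤ :=
  (measure_mono inter_subset_right).trans_lt (isCompact_closedBall (0 : E3) 1).measure_lt_top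

theorem dens_le {g : E3 → ℝ} (hg : IsGauge g) {u N N' : E3} (hu : u ≠ 0)
    (hd : HasGradientAt g N u) (hd' : HasGradientAt g N' (-u)) {r₁ : ℝ} (hr₁ : 0 < r₁)
    (heven : ∀ r, 0 < r → r ≤ r₁ → μHE[2] (cone u r ∩ {y | g y = 1}) =
      μHE[2] (cone (-u) r ∩ {y | g y = 1})) :
    ‖N‖ * (‖u‖ / g u) ^ 3 ≤ ‖N'‖ * (‖u‖ / g (-u)) ^ 3 := by
  have hgu := hg.pos u hu
  have hu' : -u ≠ 0 := neg_ne_zero.2 hu
  have hgu' := hg.pos (-u) hu'
  have hun : 0 < ‖u‖ := norm_pos_iff.2 hu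
  set s : ℝ := 3 * ‖N‖ * (‖u‖ / g u) ^ 3 with hs
  set s' : ℝ := 3 * ‖N'‖ * (‖-u‖ / g (-u)) ^ 3 with hs'
  have hs0 : 0 ≤ s := by positivity
  have hs0' : 0 ≤ s' := by positivity
  have key : ∀ ε : ℝ, 0 < ε → ε < 1 → s * (1 - ε) ^ 5 ≤ s' * (1 + ε) ^ 5 := by
    intro ε hε hε1
    have h1e : 0 < 1 - ε := by linarith
    obtain ⟨r₂, hr₂, h2⟩ := density hg hu hd hε hε1
    obtain ⟨r₃, hr₃, h3⟩ := density hg hu' hd' hε hε1
    set r := min r₁ (min r₂ r₃) with hr
    have hr0 : 0 < r := by positivity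
    have k2 := (h2 r ((min_le_right _ _).trans (min_le_left _ _))).2
    have k3 := (h3 r ((min_le_right _ _).trans (min_le_right _ _))).1
    have he := heven r hr0 (min_le_left _ _)
    rw [vol_cone_neg, ← he] at k3
    rw [← hs] at k2
    rw [← hs'] at k3
    set V := volume (cone u r ∩ Metric.closedBall (0 : E3) 1) with hV
    have hV0 : V ≠ 0 := (vol_cone_pos u hr0).ne'
    have hVt : V ≠ ⊤ := (vol_cone_lt_top u r).ne
    have k4 : ENNReal.ofReal (s * (1 - ε) ^ 5) * V ≤ ENNReal.ofReal (s' * (1 + ε) ^ 5) * V := by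
      calc ENNReal.ofReal (s * (1 - ε) ^ 5) * V
          = ENNReal.ofReal ((1 - ε) ^ 2) * (ENNReal.ofReal (s * (1 - ε) ^ 3) * V) := by
            rw [← mul_assoc, ← ENNReal.ofReal_mul (by positivity)]
            congr 2; ring
        _ ≤ ENNReal.ofReal ((1 - ε) ^ 2) * (ENNReal.ofReal ((1 + ε) ^ 2) *
            μHE[2] (cone u r ∩ {y | g y = 1})) := by gcongr
        _ = ENNReal.ofReal ((1 + ε) ^ 2) * (ENNReal.ofReal ((1 - ε) ^ 2) *
            μHE[2] (cone u r ∩ {y | g y = 1})) := by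
            rw [← mul_assoc, ← mul_assoc, mul_comm (ENNReal.ofReal ((1 - ε) ^ 2))]
        _ ≤ ENNReal.ofReal ((1 + ε) ^ 2) * (ENNReal.ofReal (s' * (1 + ε) ^ 3) * V) := by gcongr
        _ = ENNReal.ofReal (s' * (1 + ε) ^ 5) * V := by
            rw [← mul_assoc, ← ENNReal.ofReal_mul (by positivity)]
            congr 2; ring
    rw [ENNReal.mul_le_mul_iff_left hV0 hVt] at k4
    exact (ENNReal.ofReal_le_ofReal_iff (by positivity)).1 k4
  have hlim1 : Tendsto (fun ε : ℝ => s * (1 - ε) ^ 5) (𝓝[>] 0) (𝓝 s) := by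
    have : Continuous fun ε : ℝ => s * (1 - ε) ^ 5 := by fun_prop
    have h := this.tendsto 0
    simp only [sub_zero, one_pow, mul_one] at h
    exact h.mono_left nhdsWithin_le_nhds
  have hlim2 : Tendsto (fun ε : ℝ => s' * (1 + ε) ^ 5) (𝓝[>] 0) (𝓝 s') := by
    have : Continuous fun ε : ℝ => s' * (1 + ε) ^ 5 := by fun_prop
    have h := this.tendsto 0
    simp only [add_zero, one_pow, mul_one] at h
    exact h.mono_left nhdsWithin_le_nhds
  have hle : s ≤ s' := by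
    apply le_of_tendsto_of_tendsto hlim1 hlim2
    have h1 : ∀ᶠ t : ℝ in 𝓝[>] 0, t < 1 := nhdsWithin_le_nhds (gt_mem_nhds one_pos)
    filter_upwards [h1, self_mem_nhdsWithin] with t ht1 ht0
    exact key t ht0 ht1
  rw [hs, hs', norm_neg] at hle
  linarith

/-- If the surface measure is even on thin cones, then the gradients of the gauge at opposite points
are related. -/
theorem dens_eq {g : E3 → ℝ} (hg : IsGauge g) {u N N' : E3} (hu : u ≠ 0)
    (hd : HasGradientAt g N u) (hd' : HasGradientAt g N' (-u)) {r₁ : ℝ} (hr₁ : 0 < r₁)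
    (heven : ∀ r, 0 < r → r ≤ r₁ → μHE[2] (cone u r ∩ {y | g y = 1}) =
      μHE[2] (cone (-u) r ∩ {y | g y = 1})) :
    ‖N‖ * g (-u) ^ 3 = ‖N'‖ * g u ^ 3 := by
  have hgu := hg.pos u hu
  have hu' : -u ≠ 0 := neg_ne_zero.2 hu
  have hgu' := hg.pos (-u) hu'
  have hun : 0 < ‖u‖ := norm_pos_iff.2 hu
  have h1 := dens_le hg hu hd hd' hr₁ heven
  have h2 := dens_le hg hu' hd' (by rw [neg_neg]; exact hd) hr₁ (fun r h h' => by
    rw [neg_neg]; exact (heven r h h').symm)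
  rw [norm_neg, neg_neg] at h2
  have h3 := le_antisymm h1 h2
  rw [div_pow, div_pow] at h3
  field_simp at h3
  linarith

end Pool.Agent.Helper977.SurfBisect
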