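import Mathlib
import Pool.Agent.Helper977.SurfC

set_option autoImplicit false

open MeasureTheory Set Filter Topology
open scoped ENNReal NNReal Pointwise

namespace Pool.Agent.Helper977.SurfBisect

open Pool.Agent.Helper977.ConvexArea

/-- Finite measures agreeing on half-spaces are equal. -/
theorem cramer_wold {μ ν : Measure E3} [IsFiniteMeasure μ] [IsFiniteMeasure ν]
    (h : ∀ (v : E3) (c : ℝ), μ {p | inner ℝ v p ≤ c} = ν {p | inner ℝ v p ≤ c}) : μ = ν := by
  apply Measure.ext_of_charFunDual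
  ext L
  rw [charFunDual_eq_charFun_map_one, charFunDual_eq_charFun_map_one]
  have hfin : IsFiniteMeasure (μ.map L) := Measure.isFiniteMeasure_map μ L
  have : μ.map L = ν.map L := by
    apply Measure.ext_of_Iic
    intro a
    rw [Measure.map_apply (by fun_prop) measurableSet_Iic,
      Measure.map_apply (by fun_prop) measurableSet_Iic]
    have e : (L ⁻¹' Iic a) = {p | inner ℝ ((InnerProductSpace.toDual ℝ E3).symm L) p ≤ a} := by
      ext p
      simp only [mem_preimage, mem_Iic, mem_ofPred_eq, InnerProductSpace.toDual_symm_apply]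
    rw [e]
    exact h _ a
  rw [this]

section even

variable {K : Set E3}

theorem isGauge_gauge (hK : Convex ℝ K) (hc : IsCompact K) (h0 : 0 ∈ interior K) :
    IsGauge (gauge K) where
  add_le := gauge_add_le hK (absorbent_nhds_zero (mem_interior_iff_mem_nhds.1 h0))
  smul := fun t ht x => by rw [gauge_smul_of_nonneg ht]; rfl
  pos := fun x hx => (gauge_pos (absorbent_nhds_zero (mem_interior_iff_mem_nhds.1 h0))
    (NormedSpace.isVonNBounded_iff ℝ |>.2 hc.isBounded)).2 hx
  cont := continuous_gauge hK (mem_interior_iff_mem_nhds.1 h0)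

theorem frontier_eq_gauge (hK : Convex ℝ K) (h0 : 0 ∈ interior K) :
    frontier K = {y | gauge K y = 1} := by
  ext y
  exact (gauge_eq_one_iff_mem_frontier hK (mem_interior_iff_mem_nhds.1 h0)).symm

theorem plane_null (hK : Convex ℝ K) (hc : IsCompact K) (h0 : 0 ∈ interior K) {w : E3}
    (hw : w ≠ 0) : μHE[2] ({y | inner ℝ y w = 0} ∩ frontier K) = 0 := by
  have hg := isGauge_gauge hK hc h0
  have hwn : 0 < ‖w‖ := norm_pos_iff.2 hw
  obtain ⟨ψ, hψ⟩ := exists_plane_isometry (u := ‖w‖⁻¹ • w)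
    (by rw [norm_smul, norm_inv, norm_norm, inv_mul_cancel₀ hwn.ne']) 0
  have hmem : ∀ y, y ∈ range ψ ↔ inner ℝ y w = 0 := by
    intro y
    rw [hψ, mem_ofPred_eq, inner_smul_left, real_inner_comm]
    simp [hwn.ne']
  have hsub : {y | inner ℝ y w = 0} ∩ frontier K ⊆ ψ '' (frontier (ψ ⁻¹' K)) := by
    rintro y ⟨hy, hyK⟩
    obtain ⟨z, rfl⟩ := (hmem y).2 hy
    refine ⟨z, ?_, rfl⟩
    have hcl : IsClosed (ψ ⁻¹' K) := hc.isClosed.preimage ψ.continuous
    rw [hcl.frontier_eq]
    have hzK : ψ z ∈ K := by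
      rw [hc.isClosed.frontier_eq] at hyK; exact hyK.1
    refine ⟨hzK, fun hzi => ?_⟩
    obtain ⟨z0, hz0⟩ := (hmem 0).2 (inner_zero_left _)
    have hcont : Tendsto (fun s : ℝ => z + s • (z - z0)) (𝓝[>] 0) (𝓝 z) := by
      have : Continuous (fun s : ℝ => z + s • (z - z0)) := by fun_prop
      have h := this.tendsto 0
      simp only [zero_smul, add_zero] at h
      exact h.mono_left nhdsWithin_le_nhds
    have hev := hcont.eventually (mem_interior_iff_mem_nhds.1 hzi)
    obtain ⟨s, hs, hs0⟩ := (hev.and self_mem_nhdsWithin).exists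
    have hs0' : 0 < s := hs0
    have e : ψ (z + s • (z - z0)) = (1 + s) • ψ z := by
      have h1 := ψ.map_vadd z (s • (z - z0))
      have h2 := ψ.map_vsub z z0
      rw [map_smul] at h1
      simp only [vadd_eq_add, vsub_eq_sub] at h1 h2
      rw [h2, hz0, sub_zero] at h1
      rw [add_comm z, h1]
      module
    have h3 : ψ (z + s • (z - z0)) ∈ K := hs
    rw [e] at h3
    have h4 := gauge_le_one_of_mem h3
    rw [hg.smul _ (by linarith)] at h4
    rw [frontier_eq_gauge hK h0, mem_ofPred_eq] at hyK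
    rw [hyK] at h4
    linarith
  refine measure_mono_null hsub ?_
  rw [muHE_image ψ.isometry]
  have hconv : Convex ℝ (ψ ⁻¹' K) := hK.affine_preimage ψ.toAffineMap
  exact hconv.addHaar_frontier _

/-- The splitting hypothesis about the origin. -/
def Bisect (K : Set E3) : Prop := ∀ v : E3, v ≠ 0 →
  μHE[2] ({y | 0 < inner ℝ y v} ∩ frontier K) = μHE[2] ({y | inner ℝ y v < 0} ∩ frontier K)

theorem mpos (v : E3) : MeasurableSet {y : E3 | 0 < inner ℝ y v} :=
  measurableSet_lt measurable_const (by fun_prop)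

theorem mneg (v : E3) : MeasurableSet {y : E3 | inner ℝ y v < 0} :=
  measurableSet_lt (by fun_prop) measurable_const

theorem mzero (v : E3) : MeasurableSet {y : E3 | inner ℝ y v = 0} :=
  measurableSet_eq_fun (by fun_prop) measurable_const

/-- Splitting a set by a null plane. -/
theorem split {ν : Measure E3} {w : E3} (hw : ν {y | inner ℝ y w = 0} = 0) (A : Set E3) :
    ν A = ν (A ∩ {y | 0 < inner ℝ y w}) + ν (A ∩ {y | inner ℝ y w < 0}) := by
  have h1 := measure_inter_add_sdiff (μ := ν) A (mpos w)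
  rw [← h1]
  congr 1
  apply le_antisymm
  · have : A \ {y | 0 < inner ℝ y w} ⊆ (A ∩ {y | inner ℝ y w < 0}) ∪ {y | inner ℝ y w = 0} := by
      rintro y ⟨hy, hy'⟩
      simp only [mem_ofPred_eq, not_lt] at hy'
      rcases hy'.lt_or_eq with h | h
      · left; exact ⟨hy, h⟩
      · right; exact h
    refine (measure_mono this).trans ((measure_union_le _ _).trans ?_)
    rw [hw, add_zero]
  · apply measure_mono
    rintro y ⟨hy, hy'⟩
    refine ⟨hy, ?_⟩
    simp only [mem_ofPred_eq, not_lt] at hy' ⊢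
    exact hy'.le

theorem quadrant {ν : Measure E3} [IsFiniteMeasure ν] 
    (hnull : ∀ w : E3, w ≠ 0 → ν {y | inner ℝ y w = 0} = 0)
    (hbis : ∀ w : E3, w ≠ 0 → ν {y | 0 < inner ℝ y w} = ν {y | inner ℝ y w < 0})
    {e : E3} (he : e ≠ 0) (w : E3) :
    ν ({y | 0 < inner ℝ y e} ∩ {y | inner ℝ y w ≤ 0}) =
      ν ({y | inner ℝ y e < 0} ∩ {y | 0 ≤ inner ℝ y w}) := by
  by_cases hw : w = 0
  · subst hw
    simp only [inner_zero_right, le_refl, ofPred_true, inter_univ]
    exact hbis e he
  have e1 : ν ({y | 0 < inner ℝ y e} ∩ {y | inner ℝ y w ≤ 0}) =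
      ν ({y | 0 < inner ℝ y e} ∩ {y | inner ℝ y w < 0}) := by
    apply le_antisymm
    · have : {y | 0 < inner ℝ y e} ∩ {y | inner ℝ y w ≤ 0} ⊆
          ({y | 0 < inner ℝ y e} ∩ {y | inner ℝ y w < 0}) ∪ {y | inner ℝ y w = 0} := by
        rintro y ⟨hy, hy'⟩
        simp only [mem_ofPred_eq] at hy'
        rcases hy'.lt_or_eq with h | h
        · left; exact ⟨hy, h⟩
        · right; exact h
      refine (measure_mono this).trans ((measure_union_le _ _).trans ?_)
      rw [hnull w hw, add_zero]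
    · apply measure_mono
      rintro y ⟨hy, hy'⟩
      exact ⟨hy, (show inner ℝ y w ≤ 0 from le_of_lt (show inner ℝ y w < 0 from hy'))⟩
  have e2 : ν ({y | inner ℝ y e < 0} ∩ {y | 0 ≤ inner ℝ y w}) =
      ν ({y | inner ℝ y e < 0} ∩ {y | 0 < inner ℝ y w}) := by
    apply le_antisymm
    · have : {y | inner ℝ y e < 0} ∩ {y | 0 ≤ inner ℝ y w} ⊆
          ({y | inner ℝ y e < 0} ∩ {y | 0 < inner ℝ y w}) ∪ {y | inner ℝ y w = 0} := by
        rintro y ⟨hy, hy'⟩
        simp only [mem_ofPred_eq] at hy'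
        rcases hy'.lt_or_eq with h | h
        · left; exact ⟨hy, h⟩
        · right; exact h.symm
      refine (measure_mono this).trans ((measure_union_le _ _).trans ?_)
      rw [hnull w hw, add_zero]
    · apply measure_mono
      rintro y ⟨hy, hy'⟩
      exact ⟨hy, (show 0 ≤ inner ℝ y w from le_of_lt (show 0 < inner ℝ y w from hy'))⟩
  rw [e1, e2]
  -- the four quadrants
  have s1 := split (hnull w hw) {y | 0 < inner ℝ y e}
  have s2 := split (hnull w hw) {y | inner ℝ y e < 0}
  have s3 := split (hnull e he) {y | 0 < inner ℝ y w}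
  have s4 := split (hnull e he) {y | inner ℝ y w < 0}
  have b1 := hbis e he
  have b2 := hbis w hw
  rw [s1, s2] at b1
  rw [s3, s4, inter_comm {y | 0 < inner ℝ y w} {y | 0 < inner ℝ y e},
    inter_comm {y | 0 < inner ℝ y w} {y | inner ℝ y e < 0},
    inter_comm {y | inner ℝ y w < 0} {y | 0 < inner ℝ y e},
    inter_comm {y | inner ℝ y w < 0} {y | inner ℝ y e < 0}] at b2
  set a := ν ({y | 0 < inner ℝ y e} ∩ {y | 0 < inner ℝ y w}) with ha
  set b := ν ({y | 0 < inner ℝ y e} ∩ {y | inner ℝ y w < 0}) with hb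
  set c := ν ({y | inner ℝ y e < 0} ∩ {y | 0 < inner ℝ y w}) with hc
  set d := ν ({y | inner ℝ y e < 0} ∩ {y | inner ℝ y w < 0}) with hd
  have fa : a ≠ ⊤ := measure_ne_top _ _
  have fb : b ≠ ⊤ := measure_ne_top _ _
  have fc : c ≠ ⊤ := measure_ne_top _ _
  have fd : d ≠ ⊤ := measure_ne_top _ _
  have b1' := congrArg ENNReal.toReal b1
  have b2' := congrArg ENNReal.toReal b2
  rw [ENNReal.toReal_add fa fb, ENNReal.toReal_add fc fd] at b1'
  rw [ENNReal.toReal_add fa fc, ENNReal.toReal_add fb fd] at b2'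
  rw [← ENNReal.toReal_eq_toReal_iff' fb fc]
  linarith

theorem evenness (hK : Convex ℝ K) (hc : IsCompact K) (h0 : 0 ∈ interior K) (hb : Bisect K)
    {e : E3} (he : e ≠ 0) {C : Set E3} (hCm : MeasurableSet C) (hC : ∀ y ∈ C, 0 < inner ℝ y e)
    (hcone : ∀ y ∈ C, ∀ t : ℝ, 0 < t → t • y ∈ C) :
    μHE[2] (C ∩ frontier K) = μHE[2] (-C ∩ frontier K) := by
  set ν : Measure E3 := μHE[2].restrict (frontier K) with hν
  have hfm : MeasurableSet (frontier K) := isClosed_frontier.measurableSet
  have hfin : IsFiniteMeasure ν := by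
    constructor
    rw [hν, Measure.restrict_apply_univ]
    exact area_lt_top hK hc ⟨0, h0⟩
  have hnull : ∀ w : E3, w ≠ 0 → ν {y | inner ℝ y w = 0} = 0 := by
    intro w hw
    rw [hν, Measure.restrict_apply (mzero w)]
    exact plane_null hK hc h0 hw
  have hbis : ∀ w : E3, w ≠ 0 → ν {y | 0 < inner ℝ y w} = ν {y | inner ℝ y w < 0} := by
    intro w hw
    rw [hν, Measure.restrict_apply (mpos w), Measure.restrict_apply (mneg w)]
    exact hb w hw
  set G : E3 → E3 := fun y => (inner ℝ y e)⁻¹ • y with hG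
  have hGm : Measurable G := by
    have h1 : Measurable fun y : E3 => (inner ℝ y e)⁻¹ := Measurable.inv (by fun_prop)
    exact h1.smul measurable_id
  set νp := (ν.restrict {y | 0 < inner ℝ y e}).map G with hνp
  set νn := (ν.restrict {y | inner ℝ y e < 0}).map G with hνn
  have : IsFiniteMeasure νp := Measure.isFiniteMeasure_map _ G
  have : IsFiniteMeasure νn := Measure.isFiniteMeasure_map _ G
  have heq : νp = νn := by
    apply cramer_wold
    intro v c
    have hm : MeasurableSet {p : E3 | inner ℝ v p ≤ c} :=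
      measurableSet_le (by fun_prop) measurable_const
    rw [hνp, hνn, Measure.map_apply hGm hm, Measure.map_apply hGm hm,
      Measure.restrict_apply (hGm hm), Measure.restrict_apply (hGm hm)]
    have q := quadrant hnull hbis he (v - c • e)
    have e1 : G ⁻¹' {p | inner ℝ v p ≤ c} ∩ {y | 0 < inner ℝ y e} =
        {y | 0 < inner ℝ y e} ∩ {y | inner ℝ y (v - c • e) ≤ 0} := by
      ext y
      simp only [mem_inter_iff, mem_preimage, mem_ofPred_eq, hG, inner_smul_right, inner_sub_right]
      rw [and_comm, and_congr_right_iff]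
      intro hy
      rw [inv_mul_le_iff₀ hy, real_inner_comm]
      constructor <;> intro h <;> linarith
    have e2 : G ⁻¹' {p | inner ℝ v p ≤ c} ∩ {y | inner ℝ y e < 0} =
        {y | inner ℝ y e < 0} ∩ {y | 0 ≤ inner ℝ y (v - c • e)} := by
      ext y
      simp only [mem_inter_iff, mem_preimage, mem_ofPred_eq, hG, inner_smul_right, inner_sub_right]
      rw [and_comm, and_congr_right_iff]
      intro hy
      have hy' : 0 < -inner ℝ y e := by linarith
      have e3 : (inner ℝ y e)⁻¹ * inner ℝ v y = (-inner ℝ y e)⁻¹ * (-inner ℝ v y) := by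
        rw [inv_neg]; ring
      rw [e3, inv_mul_le_iff₀ hy', real_inner_comm]
      constructor <;> intro h <;> linarith
    rw [e1, e2]
    exact q
  have hval := congrArg (fun m : Measure E3 => m C) heq
  simp only [hνp, hνn] at hval
  rw [Measure.map_apply hGm hCm, Measure.map_apply hGm hCm,
    Measure.restrict_apply (hGm hCm), Measure.restrict_apply (hGm hCm)] at hval
  have e1 : G ⁻¹' C ∩ {y | 0 < inner ℝ y e} = C := by
    ext y
    simp only [mem_inter_iff, mem_preimage, mem_ofPred_eq, hG]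
    constructor
    · rintro ⟨h1, h2⟩
      have := hcone _ h1 _ h2
      rwa [smul_smul, mul_inv_cancel₀ h2.ne', one_smul] at this
    · intro h
      exact ⟨hcone _ h _ (inv_pos.2 (hC y h)), hC y h⟩
  have e2 : G ⁻¹' C ∩ {y | inner ℝ y e < 0} = -C := by
    ext y
    simp only [mem_inter_iff, mem_preimage, mem_ofPred_eq, hG, Set.mem_neg]
    constructor
    · rintro ⟨h1, h2⟩
      have := hcone _ h1 (-inner ℝ y e) (by linarith)
      rwa [smul_smul, neg_mul, mul_inv_cancel₀ h2.ne, neg_smul, one_smul] at this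
    · intro h
      have h3 := hC _ h
      rw [inner_neg_left] at h3
      have h4 := hcone _ h _ (inv_pos.2 h3)
      rw [smul_neg, inv_neg, neg_smul, neg_neg] at h4
      exact ⟨h4, by linarith⟩
  rw [e1, e2] at hval
  have hCm' : MeasurableSet (-C) := hCm.neg
  rw [hν, Measure.restrict_apply hCm, Measure.restrict_apply hCm'] at hval
  exact hval

theorem evenness_cone (hK : Convex ℝ K) (hc : IsCompact K) (h0 : 0 ∈ interior K) (hb : Bisect K)
    {u : E3} (hu : u ≠ 0) {r : ℝ} (hr : r ≤ ‖u‖) :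
    μHE[2] (cone u r ∩ {y | gauge K y = 1}) = μHE[2] (cone (-u) r ∩ {y | gauge K y = 1}) := by
  rw [← frontier_eq_gauge hK h0, ← neg_cone]
  exact evenness hK hc h0 hb hu (cone_measurable u r) (fun y hy => cone_inner_pos hu hr hy)
    (fun y hy t ht => smul_mem_cone hy ht)

end even

end Pool.Agent.Helper977.SurfBisect
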