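import Mathlib
import Pool.Agent.Helper977.SurfD

set_option autoImplicit false

open MeasureTheory Set Filter Topology
open scoped ENNReal NNReal Pointwise

namespace Pool.Agent.Helper977.SurfBisect

open Pool.Agent.Helper977.ConvexArea

theorem subgrad_norm_le {g : E3 → ℝ} {L : ℝ≥0} (hL : LipschitzWith L g)
    {a q : E3} (h : ∀ y, g a + inner ℝ q (y - a) ≤ g y) : ‖q‖ ≤ L := by
  have h1 := h (a + q)
  rw [add_sub_cancel_left, real_inner_self_eq_norm_sq] at h1
  have h2 := hL.dist_le_mul (a + q) a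
  rw [Real.dist_eq, dist_eq_norm, add_sub_cancel_left] at h2
  have h3 := (abs_le.1 h2).2
  by_contra hcon
  push Not at hcon
  have h4 : 0 ≤ (L : ℝ) := L.2
  nlinarith

theorem limit_subgrad {g : E3 → ℝ} (hg : IsGauge g) {L : ℝ≥0} (hL : LipschitzWith L g)
    {φ N : ℕ → E3} {a : E3} (hN : ∀ k, HasGradientAt g (N k) (φ k))
    (hφ : Tendsto φ atTop (𝓝 a)) :
    ∃ q, (∀ y, g a + inner ℝ q (y - a) ≤ g y) ∧ ∃ σ : ℕ → ℕ, StrictMono σ ∧
      Tendsto (N ∘ σ) atTop (𝓝 q) := by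
  have hb : ∀ k, N k ∈ Metric.closedBall (0 : E3) L := by
    intro k
    rw [mem_closedBall_zero_iff]
    exact subgrad_norm_le hL (subgrad hg (hN k))
  obtain ⟨q, -, σ, hσ, hq⟩ := (isCompact_closedBall (0 : E3) (L : ℝ)).tendsto_subseq hb
  refine ⟨q, fun y => ?_, σ, hσ, hq⟩
  have hφσ : Tendsto (φ ∘ σ) atTop (𝓝 a) := hφ.comp hσ.tendsto_atTop
  have h1 : Tendsto (fun k => g (φ (σ k)) + inner ℝ (N (σ k)) (y - φ (σ k))) atTop
      (𝓝 (g a + inner ℝ q (y - a))) := by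
    apply Tendsto.add
    · exact (hg.cont.tendsto a).comp hφσ
    · exact Tendsto.inner hq (tendsto_const_nhds.sub hφσ)
  exact le_of_tendsto h1 (Eventually.of_forall fun k => subgrad hg (hN (σ k)) y)

theorem dense_diff {g : E3 → ℝ} {L : ℝ≥0} (hL : LipschitzWith L g) :
    Dense {u : E3 | DifferentiableAt ℝ g u ∧ DifferentiableAt ℝ g (-u)} := by
  have h1 : ∀ᵐ u ∂(volume : Measure E3), DifferentiableAt ℝ g u := hL.ae_differentiableAt
  have hL' : LipschitzWith L (fun y => g (-y)) := by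
    apply LipschitzWith.of_dist_le_mul
    intro x y
    have := hL.dist_le_mul (-x) (-y)
    rwa [dist_neg_neg] at this
  have h2 : ∀ᵐ u ∂(volume : Measure E3), DifferentiableAt ℝ (fun y => g (-y)) u :=
    hL'.ae_differentiableAt
  apply Measure.dense_of_ae (μ := (volume : Measure E3))
  filter_upwards [h1, h2] with u hu hu'
  refine ⟨hu, ?_⟩
  have h3 : DifferentiableAt ℝ (fun y : E3 => -y) (-u) := differentiableAt_id.neg
  have h4 : DifferentiableAt ℝ (fun y => g (-y)) (-(-u)) := by rw [neg_neg]; exact hu'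
  have h5 := DifferentiableAt.comp (-u) h4 h3
  have e : (fun y => g (-y)) ∘ (fun y : E3 => -y) = g := by ext y; simp
  rwa [e] at h5

theorem symmetric_of_rel {g : E3 → ℝ} (hg : IsGauge g) {L : ℝ≥0} (hL : LipschitzWith L g)
    (hrel : ∀ u N N' : E3, u ≠ 0 → HasGradientAt g N u → HasGradientAt g N' (-u) →
      ‖N‖ * g (-u) ^ 3 = ‖N'‖ * g u ^ 3) (y : E3) : g (-y) ≤ g y := by
  by_contra hcon
  push Not at hcon
  have hy0 : y ≠ 0 := by
    rintro rfl
    simp at hcon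
  have hyn : 0 < ‖y‖ := norm_pos_iff.2 hy0
  -- maximal ratio
  have hsc : IsCompact (Metric.sphere (0 : E3) 1) := isCompact_sphere 0 1
  have hne0 : ∀ u ∈ Metric.sphere (0 : E3) 1, u ≠ 0 := by
    rintro u hu rfl
    simp at hu
  have hsne : (‖y‖⁻¹ • y) ∈ Metric.sphere (0 : E3) 1 := by
    rw [mem_sphere_zero_iff_norm, norm_smul, norm_inv, norm_norm, inv_mul_cancel₀ hyn.ne']
  have hFc : ContinuousOn (fun u => g (-u) / g u) (Metric.sphere (0 : E3) 1) := by
    apply ContinuousOn.div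
    · exact (hg.cont.comp continuous_neg).continuousOn
    · exact hg.cont.continuousOn
    · intro u hu
      exact (hg.pos u (hne0 u hu)).ne'
  obtain ⟨u₀, hu₀, hmax⟩ := hsc.exists_isMaxOn ⟨_, hsne⟩ hFc
  have hu₀0 := hne0 u₀ hu₀
  have hgu₀ := hg.pos u₀ hu₀0
  set M : ℝ := g (-u₀) / g u₀ with hM
  have hMle : ∀ z, g (-z) ≤ M * g z := by
    intro z
    by_cases hz : z = 0
    · rw [hz, neg_zero, hg.zero, mul_zero]
    · have hzn : 0 < ‖z‖ := norm_pos_iff.2 hz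
      have h1 : (‖z‖⁻¹ • z) ∈ Metric.sphere (0 : E3) 1 := by
        rw [mem_sphere_zero_iff_norm, norm_smul, norm_inv, norm_norm, inv_mul_cancel₀ hzn.ne']
      have h2 := hmax h1
      simp only [mem_ofPred_eq] at h2
      rw [← smul_neg, hg.smul _ (inv_pos.2 hzn).le, hg.smul _ (inv_pos.2 hzn).le,
        mul_div_mul_left _ _ (inv_pos.2 hzn).ne', ← hM, div_le_iff₀ (hg.pos z hz)] at h2
      exact h2
  have hM1 : 1 < M := by
    have h1 := hMle y
    have h2 := hg.pos y hy0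
    by_contra hcon2
    push Not at hcon2
    nlinarith
  have hMu₀ : g (-u₀) = M * g u₀ := by rw [hM]; field_simp
  -- subgradients at u₀
  set Q : Set E3 := {q | ∀ z, g u₀ + inner ℝ q (z - u₀) ≤ g z} with hQ
  have hQc : IsClosed Q := by
    rw [hQ, ofPred_forall]
    apply isClosed_iInter
    intro z
    exact isClosed_le (by fun_prop) continuous_const
  have hQb : Q ⊆ Metric.closedBall 0 L := by
    intro q hq
    rw [mem_closedBall_zero_iff]
    exact subgrad_norm_le hL hq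
  have hQcomp : IsCompact Q := (isCompact_closedBall (0 : E3) (L : ℝ)).of_isClosed_subset hQc hQb
  -- a general choice of nearby differentiability points
  have hdense := dense_diff hL
  have hchoose : ∀ q : E3, ∀ k : ℕ, ∃ u : E3, ‖u - (u₀ + (1 / ((k : ℝ) + 1)) • q)‖ <
      (1 / ((k : ℝ) + 1)) ^ 2 ∧ DifferentiableAt ℝ g u ∧ DifferentiableAt ℝ g (-u) := by
    intro q k
    have hpos : 0 < (1 / ((k : ℝ) + 1)) ^ 2 := by positivity
    obtain ⟨u, hu, hu'⟩ := hdense.exists_mem_open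
      (Metric.isOpen_ball (x := u₀ + (1 / ((k : ℝ) + 1)) • q) (ε := (1 / ((k : ℝ) + 1)) ^ 2))
      ⟨_, Metric.mem_ball_self hpos⟩
    rw [Metric.mem_ball, dist_eq_norm] at hu'
    exact ⟨u, hu', hu⟩
  have hlim0 : Tendsto (fun k : ℕ => 1 / ((k : ℝ) + 1)) atTop (𝓝 0) :=
    tendsto_one_div_add_atTop_nhds_zero_nat
  have htend : ∀ q : E3, ∀ φ : ℕ → E3, (∀ k : ℕ, ‖φ k - (u₀ + (1 / ((k : ℝ) + 1)) • q)‖ <
      (1 / ((k : ℝ) + 1)) ^ 2) → Tendsto φ atTop (𝓝 u₀) := by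
    intro q φ h
    have h1 : Tendsto (fun k : ℕ => u₀ + (1 / ((k : ℝ) + 1)) • q) atTop (𝓝 u₀) := by
      have := tendsto_const_nhds (x := u₀) |>.add (hlim0.smul_const q)
      simpa using this
    have h2 : Tendsto (fun k : ℕ => φ k - (u₀ + (1 / ((k : ℝ) + 1)) • q)) atTop (𝓝 0) := by
      apply squeeze_zero_norm (fun k => (h k).le)
      have := hlim0.pow 2
      simpa using this
    have h3 := h2.add h1
    simpa using h3
  have hQne : Q.Nonempty := by
    choose φ hφ1 hφ2 hφ3 using hchoose 0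
    obtain ⟨q, hq, -⟩ := limit_subgrad hg hL (N := fun k => gradient g (φ k))
      (fun k => (hφ2 k).hasGradientAt) (htend 0 φ hφ1)
    exact ⟨q, hq⟩
  obtain ⟨qs, hqs, hqmax⟩ := hQcomp.exists_isMaxOn hQne continuous_norm.continuousOn
  set R : ℝ := ‖qs‖ with hR
  have hR0 : 0 < R := by
    have h1 := hqs 0
    rw [hg.zero, zero_sub, inner_neg_right] at h1
    rw [hR]
    apply norm_pos_iff.2
    rintro rfl
    rw [inner_zero_left] at h1
    linarith
  choose φ hφ1 hφ2 hφ3 using hchoose qs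
  have hφt := htend qs φ hφ1
  have hφnt : Tendsto (fun k => -φ k) atTop (𝓝 (-u₀)) := hφt.neg
  obtain ⟨q', hq', σ, hσ, hlim⟩ := limit_subgrad hg hL (N := fun k => gradient g (-φ k))
      (fun k => (hφ3 k).hasGradientAt) hφnt
  -- lower bound for the norm of gradients
  have hlow : ∀ k : ℕ, R ^ 2 - (R + L) * (1 / ((k : ℝ) + 1)) ≤ ‖gradient g (φ k)‖ * R := by
    intro k
    set t : ℝ := 1 / ((k : ℝ) + 1) with ht
    have ht0 : 0 < t := by positivity
    set N := gradient g (φ k) with hN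
    have hgr : HasGradientAt g N (φ k) := (hφ2 k).hasGradientAt
    have h1 := subgrad hg hgr u₀
    have h2 := hqs (φ k)
    set e : E3 := φ k - (u₀ + t • qs) with he
    have he1 : ‖e‖ < t ^ 2 := hφ1 k
    have e1 : φ k - u₀ = t • qs + e := by rw [he]; abel
    have e2 : u₀ - φ k = -(t • qs + e) := by rw [← e1]; abel
    rw [e2, inner_neg_right, inner_add_right, inner_smul_right] at h1
    rw [e1, inner_add_right, inner_smul_right, real_inner_self_eq_norm_sq, ← hR] at h2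
    have h3 := abs_le.1 (abs_real_inner_le_norm N e)
    have h4 := abs_le.1 (abs_real_inner_le_norm qs e)
    have h5 : ‖N‖ ≤ L := subgrad_norm_le hL (subgrad hg hgr)
    have h6 : ‖N‖ * ‖e‖ ≤ L * t ^ 2 := by gcongr
    have h7 : ‖qs‖ * ‖e‖ ≤ R * t ^ 2 := by rw [← hR]; gcongr
    have h8 : t * (R ^ 2 - (R + L) * t) ≤ t * inner ℝ N qs := by
      nlinarith [h3.1, h3.2, h4.1, h4.2]
    have h9 : R ^ 2 - (R + L) * t ≤ inner ℝ N qs := le_of_mul_le_mul_left h8 ht0
    exact h9.trans (real_inner_le_norm _ _)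
  have hφ0 : ∀ᶠ k in atTop, φ k ≠ 0 := hφt.eventually_ne hu₀0
  have hlimg1 : Tendsto (fun k => g (φ k)) atTop (𝓝 (g u₀)) := (hg.cont.tendsto _).comp hφt
  have hlimg2 : Tendsto (fun k => g (-φ k)) atTop (𝓝 (g (-u₀))) := (hg.cont.tendsto _).comp hφnt
  have hlima : Tendsto (fun k : ℕ => (R ^ 2 - (R + L) * (1 / ((k : ℝ) + 1))) * g (-φ k) ^ 3) atTop
      (𝓝 ((R ^ 2 - (R + L) * 0) * g (-u₀) ^ 3)) :=
    (tendsto_const_nhds.sub (hlim0.const_mul _)).mul (hlimg2.pow 3)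
  have hlimb : Tendsto (fun k : ℕ => ‖gradient g (-φ (σ k))‖ * g (φ (σ k)) ^ 3 * R) atTop
      (𝓝 (‖q'‖ * g u₀ ^ 3 * R)) :=
    ((hlim.norm).mul ((hlimg1.comp hσ.tendsto_atTop).pow 3)).mul_const R
  have hfin : (R ^ 2 - (R + L) * 0) * g (-u₀) ^ 3 ≤ ‖q'‖ * g u₀ ^ 3 * R := by
    apply le_of_tendsto_of_tendsto (hlima.comp hσ.tendsto_atTop) hlimb
    filter_upwards [hσ.tendsto_atTop.eventually hφ0] with k hk
    have h1 := hrel (φ (σ k)) _ _ hk (hφ2 (σ k)).hasGradientAt (hφ3 (σ k)).hasGradientAt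
    rw [← h1]
    have h2 := hlow (σ k)
    have h3 : 0 ≤ g (-φ (σ k)) ^ 3 := pow_nonneg (hg.nonneg _) 3
    simp only [Function.comp]
    nlinarith
  rw [mul_zero, sub_zero, hMu₀, mul_pow] at hfin
  -- the reflected subgradient
  have hMp : 0 < M := by linarith
  have hp : (-(M⁻¹ • q')) ∈ Q := by
    intro z
    have h1 := hq' (-z)
    have h2 := hMle z
    rw [hMu₀] at h1
    have e1 : -z - -u₀ = -(z - u₀) := by abel
    rw [e1, inner_neg_right] at h1
    rw [inner_neg_left, inner_smul_left]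
    simp only [conj_trivial]
    have h3 : M * (g u₀ + -(M⁻¹ * inner ℝ q' (z - u₀))) ≤ M * g z := by
      have : M * (g u₀ + -(M⁻¹ * inner ℝ q' (z - u₀))) = M * g u₀ + -inner ℝ q' (z - u₀) := by
        field_simp
      rw [this]; linarith
    exact le_of_mul_le_mul_left h3 hMp
  have hple := hqmax hp
  simp only [mem_ofPred_eq, norm_neg, norm_smul, norm_inv] at hple
  rw [Real.norm_of_nonneg hMp.le, ← hR, inv_mul_le_iff₀ hMp] at hple
  -- now ‖q'‖ ≤ M R but ‖q'‖ ≥ M^3 R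
  have h1 : R ^ 2 * (M ^ 3 * g u₀ ^ 3) ≤ M * R * g u₀ ^ 3 * R := by
    refine hfin.trans ?_
    gcongr
  have h2 : 0 < R ^ 2 * g u₀ ^ 3 := by positivity
  have h3 : R ^ 2 * g u₀ ^ 3 * M ^ 3 ≤ R ^ 2 * g u₀ ^ 3 * M := by
    calc R ^ 2 * g u₀ ^ 3 * M ^ 3 = R ^ 2 * (M ^ 3 * g u₀ ^ 3) := by ring
      _ ≤ M * R * g u₀ ^ 3 * R := h1
      _ = _ := by ring
  have h4 : M ^ 3 ≤ M := le_of_mul_le_mul_left h3 h2
  nlinarith [sq_nonneg (M - 1)]

end Pool.Agent.Helper977.SurfBisect
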