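import Mathlib
import Pool.Agent.Helper977.SurfE

set_option autoImplicit false

open MeasureTheory Set Filter Topology
open scoped ENNReal NNReal Pointwise

namespace Pool.Agent.Helper977.SurfBisect

open Pool.Agent.Helper977.ConvexArea

/-- The symmetry theorem about the origin. -/
theorem gauge_neg_le {K : Set E3} (hK : Convex ℝ K) (hc : IsCompact K) (h0 : 0 ∈ interior K)
    (hb : Bisect K) (y : E3) : gauge K (-y) ≤ gauge K y := by
  have hg := isGauge_gauge hK hc h0
  obtain ⟨L, hL⟩ := hK.lipschitz_gauge (mem_interior_iff_mem_nhds.1 h0)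
  refine symmetric_of_rel hg hL ?_ y
  intro u N N' hu hN hN'
  exact dens_eq hg hu hN hN' (norm_pos_iff.2 hu)
    (fun r _ hr => evenness_cone hK hc h0 hb hu hr)

theorem muH_eq_iff (A B : Set E3) : μHE[2] A = μHE[2] B ↔ μH[2] A = μH[2] B := by
  rw [Measure.euclideanHausdorffMeasure_def, Measure.smul_apply, Measure.smul_apply]
  have hc := Measure.addHaarScalarFactor_volume_hausdorffMeasure_ne_zero 2
  norm_cast
  constructor
  · intro h
    rw [ENNReal.smul_def, ENNReal.smul_def, smul_eq_mul, smul_eq_mul] at h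
    have := (ENNReal.mul_right_inj (ENNReal.coe_ne_zero.2 hc) ENNReal.coe_ne_top).1 h
    exact this
  · intro h
    rw [h]

theorem main (K : Set E3) (x : E3) (hK : Convex ℝ K) (hc : IsCompact K) (hx : x ∈ interior K)
    (h : ∀ v : E3, v ≠ 0 →
        μH[2] {y | y ∈ frontier K ∧ 0 < inner ℝ (y - x) v} =
          μH[2] {y | y ∈ frontier K ∧ inner ℝ (y - x) v < 0}) :
    ∀ y ∈ K, (2 : ℝ) • x - y ∈ K := by
  let e : E3 ≃ₜ E3 := Homeomorph.addRight x
  have he : ∀ y, e y = y + x := fun y => rfl
  have hK' : Convex ℝ (e ⁻¹' K) := by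
    intro a ha b hb s t hs ht hst
    have := hK ha hb hs ht hst
    rw [mem_preimage, he]
    rw [he, he] at this
    have e1 : s • a + t • b + x = s • (a + x) + t • (b + x) := by
      have : x = (s + t) • x := by rw [hst, one_smul]
      nth_rw 1 [this]
      module
    rw [e1]; exact this
  have hc' : IsCompact (e ⁻¹' K) := e.isCompact_preimage.2 hc
  have h0 : (0 : E3) ∈ interior (e ⁻¹' K) := by
    rw [← e.preimage_interior, mem_preimage, he, zero_add]; exact hx
  have hb : Bisect (e ⁻¹' K) := by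
    intro v hv
    have hiso : Isometry e := by
      apply Isometry.of_dist_eq
      intro a b
      rw [he, he, dist_add_right]
    have h1 : e '' ({y | 0 < inner ℝ y v} ∩ frontier (e ⁻¹' K)) =
        {y | y ∈ frontier K ∧ 0 < inner ℝ (y - x) v} := by
      rw [← e.preimage_frontier]
      ext y
      constructor
      · rintro ⟨z, ⟨hz1, hz2⟩, rfl⟩
        refine ⟨hz2, ?_⟩
        rw [he, add_sub_cancel_right]; exact hz1
      · rintro ⟨hy1, hy2⟩
        refine ⟨y - x, ⟨hy2, ?_⟩, ?_⟩
        · rw [mem_preimage, he, sub_add_cancel]; exact hy1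
        · rw [he, sub_add_cancel]
    have h2 : e '' ({y | inner ℝ y v < 0} ∩ frontier (e ⁻¹' K)) =
        {y | y ∈ frontier K ∧ inner ℝ (y - x) v < 0} := by
      rw [← e.preimage_frontier]
      ext y
      constructor
      · rintro ⟨z, ⟨hz1, hz2⟩, rfl⟩
        refine ⟨hz2, ?_⟩
        rw [he, add_sub_cancel_right]; exact hz1
      · rintro ⟨hy1, hy2⟩
        refine ⟨y - x, ⟨hy2, ?_⟩, ?_⟩
        · rw [mem_preimage, he, sub_add_cancel]; exact hy1
        · rw [he, sub_add_cancel]
    have k1 := hiso.euclideanHausdorffMeasure_image (d := 2)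
      ({y | 0 < inner ℝ y v} ∩ frontier (e ⁻¹' K))
    have k2 := hiso.euclideanHausdorffMeasure_image (d := 2)
      ({y | inner ℝ y v < 0} ∩ frontier (e ⁻¹' K))
    rw [← k1, ← k2, h1, h2, muH_eq_iff]
    exact h v hv
  intro y hy
  have hyK : y - x ∈ e ⁻¹' K := by rw [mem_preimage, he, sub_add_cancel]; exact hy
  have h1 := gauge_neg_le hK' hc' h0 hb (y - x)
  have h2 := h1.trans (gauge_le_one_of_mem hyK)
  have h3 := (gauge_le_one_iff_mem_closure hK' (mem_interior_iff_mem_nhds.1 h0)).1 h2
  rw [hc'.isClosed.closure_eq, mem_preimage, he] at h3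
  have e1 : (2 : ℝ) • x - y = -(y - x) + x := by module
  rw [e1]; exact h3

end Pool.Agent.Helper977.SurfBisect
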